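import Pool.Agent.X215.SP.Tab

/-! The counting contradiction. -/

namespace Pool.Agent.X215.SP

open Finset

/-- Digits. -/
theorem exists_digits (B : ℕ) (p : ℕ → ℕ) : ∀ D : ℕ, (∀ i < D, p i < B) →
    ∃ v < B ^ D, ∀ i < D, v / B ^ i % B = p i
  | 0, _ => ⟨0, by simp, by simp⟩
  | D + 1, h => by
    obtain ⟨v, hv, hd⟩ := exists_digits B p D (fun i hi => h i (by omega))
    have hpD := h D (by omega)
    have hB : 0 < B := by omega
    refine ⟨v + B ^ D * p D, ?_, ?_⟩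
    · rw [pow_succ]
      calc v + B ^ D * p D < B ^ D * (p D + 1) := by rw [mul_add]; omega
        _ ≤ B ^ D * B := Nat.mul_le_mul_left _ hpD
    · intro i hi
      rcases Nat.lt_or_ge i D with h1 | h1
      · rw [← hd i h1]
        obtain ⟨e, rfl⟩ : ∃ e, D = i + 1 + e := ⟨D - (i + 1), by omega⟩
        have : v + B ^ (i + 1 + e) * p (i + 1 + e) =
          v + B ^ i * (B * (B ^ e * p (i + 1 + e))) := by ring
        rw [this, Nat.add_mul_div_left _ _ (by positivity), Nat.add_mul_mod_self_left]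
      · have : i = D := by omega
        subst this
        rw [Nat.add_mul_div_left _ _ (by positivity), Nat.div_eq_of_lt hv, zero_add,
          Nat.mod_eq_of_lt hpD]

/-- Exponential growth. -/
theorem growth (D c : ℕ) (hD : 0 < D) : ∃ u0, ∀ u ≥ u0, 100 * u + c < 2 ^ (u / D) := by
  refine ⟨2 * (400 * D + c + 1) * D, fun u hu => ?_⟩
  have h1 : 2 * (400 * D + c + 1) ≤ u / D := (Nat.le_div_iff_mul_le hD).2 hu
  set w := u / D with hw
  have h2 : u < D * (w + 1) := Nat.lt_mul_div_succ u hD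
  set q := w / 2 with hq
  have h3 : 400 * D + c + 1 ≤ q := by omega
  have h4 : w + 1 ≤ 2 * q + 2 := by omega
  have h5 : q < 2 ^ q := Nat.lt_two_pow_self
  have h6 : q * q < 2 ^ q * 2 ^ q := by nlinarith
  have h7 : 2 ^ q * 2 ^ q ≤ 2 ^ w := by
    rw [← pow_add]; exact Nat.pow_le_pow_right (by norm_num) (by omega)
  have h8 : u < D * (2 * q + 2) := lt_of_lt_of_le h2 (Nat.mul_le_mul_left _ h4)
  have h9 : (400 * D + c + 1) * q ≤ q * q := Nat.mul_le_mul_right _ h3
  have h10 : 1 ≤ q := by omega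
  nlinarith [Nat.mul_le_mul_left D h10, Nat.mul_le_mul_left c h10]

/-- The counting contradiction. -/
theorem core {u m c0 Q X : ℕ} (hQ : Q = 2 ^ (20 * u)) (hX : X = Q * Q) (hm : 0 < m)
    (hu : 2 * c0 + 17 < u) {h1 h2 : ℕ → ℕ} {a : ℕ → ℕ → ℕ}
    (b1 : ∀ x < X, h1 x < Q) (b2 : ∀ x < X, h2 x < Q)
    (f1 : ∀ z < Q, (∑ x ∈ range X, if h1 x = z then 1 else 0) = Q)
    (f2 : ∀ z < Q, (∑ x ∈ range X, if h2 x = z then 1 else 0) = Q)
    (hC : 2 ^ (10 * u) * Q ^ 3 * ∑ v ∈ range (2 ^ u), Coll X m (2 ^ (10 * u)) (a v) h1 h2 ≤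
      2 ^ u * m ^ 2 * (X ^ 4 + 3 * 2 ^ (10 * u) * Q ^ 4 * Q ^ 3))
    {Bz Bx : Finset ℕ} (hBz : 8 * Bz.card ≤ Q) (hBzs : ∀ z ∈ Bz, z < Q) (hBx : 8 * Bx.card ≤ X)
    (hBxs : ∀ x ∈ Bx, x < X)
    {vv : ℕ → ℕ → ℕ} (hvv : ∀ i < X, ∀ j < X, h1 i = h2 j → vv i j < 2 ^ u)
    {suc : ℕ → ℕ → ℕ → Prop} [∀ i j, DecidablePred (suc i j)]
    (hsuc : ∀ i < X, ∀ j < X, h1 i = h2 j →
      m ≤ ((range m).filter (fun r => suc i j r)).card * 2 ^ u)
    (hun : ∀ i < X, ∀ j < X, h1 i = h2 j → h1 i ∉ Bz → ∀ r < m, suc i j r →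
      2 ^ (10 * u) * cnt (X * X * m) (a (vv i j)) (a (vv i j) (code X m i j r)) < X * X * m)
    (hL1 : ∀ v, ∀ i < X, i ∉ Bx → ∀ W : Finset ℕ, (∀ y ∈ W, ∃ j < X, ∃ r < m, h1 i = h2 j ∧
      suc i j r ∧ vv i j = v ∧ a v (code X m i j r) = y) → W.card ≤ 2 ^ (u + c0 + 4))
    (hL2 : ∀ v, ∀ j < X, j ∉ Bx → ∀ W : Finset ℕ, (∀ y ∈ W, ∃ i < X, ∃ r < m, h1 i = h2 j ∧
      suc i j r ∧ vv i j = v ∧ a v (code X m i j r) = y) → W.card ≤ 2 ^ (u + c0 + 4)) :
    False := by
  classical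
  have hQ0 : 0 < Q := by rw [hQ]; positivity
  -- the pairs in the same block
  set All := ((range X) ×ˢ (range X)).filter (fun p => h1 p.1 = h2 p.2) with hAll
  have cAll : All.card = X * Q := by
    rw [hAll, Finset.card_filter, Finset.sum_product]
    have : ∀ i ∈ range X, ∑ j ∈ range X, (if h1 i = h2 j then 1 else 0) = Q := by
      intro i hi
      rw [← f2 (h1 i) (b1 i (mem_range.1 hi))]
      refine Finset.sum_congr rfl fun j _ => if_congr eq_comm rfl rfl
    simp only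
    rw [Finset.sum_congr rfl this, Finset.sum_const, card_range, smul_eq_mul]
  set P := All.filter (fun p => p.1 ∉ Bx ∧ p.2 ∉ Bx ∧ h1 p.1 ∉ Bz) with hP
  have cA1 : (All.filter (fun p => p.1 ∈ Bx)).card ≤ Bx.card * Q := by
    have e : All.filter (fun p => p.1 ∈ Bx) ⊆ (Bx ×ˢ range X).filter (fun p => h1 p.1 = h2 p.2) := by
      intro p hp
      simp only [hAll, mem_filter, mem_product, mem_range] at hp ⊢
      exact ⟨⟨hp.2, hp.1.1.2⟩, hp.1.2⟩
    refine (card_le_card e).trans ?_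
    rw [Finset.card_filter, Finset.sum_product]
    have : ∀ i ∈ Bx, ∑ j ∈ range X, (if h1 i = h2 j then 1 else 0) = Q := by
      intro i hi
      rw [← f2 (h1 i) (b1 i (hBxs i hi))]
      refine Finset.sum_congr rfl fun j _ => if_congr eq_comm rfl rfl
    simp only
    rw [Finset.sum_congr rfl this, Finset.sum_const, smul_eq_mul]
  have cA2 : (All.filter (fun p => p.2 ∈ Bx)).card ≤ Bx.card * Q := by
    have e : All.filter (fun p => p.2 ∈ Bx) ⊆ (range X ×ˢ Bx).filter (fun p => h1 p.1 = h2 p.2) := by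
      intro p hp
      simp only [hAll, mem_filter, mem_product, mem_range] at hp ⊢
      exact ⟨⟨hp.1.1.1, hp.2⟩, hp.1.2⟩
    refine (card_le_card e).trans ?_
    rw [Finset.card_filter, Finset.sum_product_right]
    have : ∀ j ∈ Bx, ∑ i ∈ range X, (if h1 i = h2 j then 1 else 0) = Q := by
      intro j hj
      rw [← f1 (h2 j) (b2 j (hBxs j hj))]
    simp only
    rw [Finset.sum_congr rfl this, Finset.sum_const, smul_eq_mul]
  have cA3 : (All.filter (fun p => h1 p.1 ∈ Bz)).card ≤ Bz.card * Q * Q := by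
    have e : All.filter (fun p => h1 p.1 ∈ Bz) ⊆ ((range X).filter (fun i => h1 i ∈ Bz) ×ˢ
        range X).filter (fun p => h1 p.1 = h2 p.2) := by
      intro p hp
      simp only [hAll, mem_filter, mem_product, mem_range] at hp ⊢
      exact ⟨⟨⟨hp.1.1.1, hp.2⟩, hp.1.1.2⟩, hp.1.2⟩
    refine (card_le_card e).trans ?_
    rw [Finset.card_filter, Finset.sum_product]
    have : ∀ i ∈ (range X).filter (fun i => h1 i ∈ Bz),
        ∑ j ∈ range X, (if h1 i = h2 j then 1 else 0) = Q := by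
      intro i hi
      rw [← f2 (h1 i) (b1 i (mem_range.1 (mem_filter.1 hi).1))]
      refine Finset.sum_congr rfl fun j _ => if_congr eq_comm rfl rfl
    simp only
    rw [Finset.sum_congr rfl this, Finset.sum_const, smul_eq_mul]
    refine Nat.mul_le_mul_right _ ?_
    have e2 : (range X).filter (fun i => h1 i ∈ Bz) ⊆
        Bz.biUnion fun z => (range X).filter (fun i => h1 i = z) := by
      intro i hi
      have := mem_filter.1 hi
      exact mem_biUnion.2 ⟨h1 i, this.2, mem_filter.2 ⟨this.1, rfl⟩⟩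
    refine (card_le_card e2).trans (card_biUnion_le.trans ?_)
    rw [← smul_eq_mul, ← Finset.sum_const]
    refine Finset.sum_le_sum fun z hz => ?_
    rw [Finset.card_filter]
    exact (f1 z (hBzs z hz)).le
  have cP : X * Q ≤ 2 * P.card := by
    have e : All ⊆ P ∪ (All.filter (fun p => p.1 ∈ Bx) ∪ (All.filter (fun p => p.2 ∈ Bx) ∪
        All.filter (fun p => h1 p.1 ∈ Bz))) := by
      intro p hp
      by_cases a1 : p.1 ∈ Bx
      · exact mem_union_right _ (mem_union_left _ (mem_filter.2 ⟨hp, a1⟩))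
      · by_cases a2 : p.2 ∈ Bx
        · exact mem_union_right _ (mem_union_right _ (mem_union_left _ (mem_filter.2 ⟨hp, a2⟩)))
        · by_cases a3 : h1 p.1 ∈ Bz
          · exact mem_union_right _ (mem_union_right _ (mem_union_right _
              (mem_filter.2 ⟨hp, a3⟩)))
          · exact mem_union_left _ (mem_filter.2 ⟨hp, a1, a2, a3⟩)
    have e1 := (card_le_card e).trans ((card_union_le _ _).trans (Nat.add_le_add_left
      ((card_union_le _ _).trans (Nat.add_le_add_left (card_union_le _ _) _)) _))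
    rw [cAll] at e1
    have e2 : 8 * (Bx.card * Q) ≤ X * Q := by
      calc 8 * (Bx.card * Q) = 8 * Bx.card * Q := by ring
        _ ≤ _ := Nat.mul_le_mul_right _ hBx
    have e3 : 8 * (Bz.card * Q * Q) ≤ X * Q := by
      calc 8 * (Bz.card * Q * Q) = (8 * Bz.card) * (Q * Q) := by ring
        _ ≤ Q * (Q * Q) := Nat.mul_le_mul_right _ hBz
        _ = X * Q := by rw [hX]; ring
    omega
  -- all the successes
  set T : Finset (ℕ × ℕ × Fin m) := ((range X) ×ˢ (range X) ×ˢ univ).filter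
    (fun s => (s.1, s.2.1) ∈ P ∧ suc s.1 s.2.1 s.2.2) with hT
  have cT : P.card * m ≤ T.card * 2 ^ u := by
    have e : T.card = ∑ p ∈ P, (T.filter (fun s => (s.1, s.2.1) = p)).card := by
      refine Finset.card_eq_sum_card_fiberwise ?_
      intro s hs
      exact (mem_filter.1 hs).2.1
    rw [e, Finset.sum_mul, ← smul_eq_mul, ← Finset.sum_const]
    refine Finset.sum_le_sum fun p hp => ?_
    have hp1 := mem_filter.1 hp
    have hp2 := mem_filter.1 hp1.1
    have hp3 := mem_product.1 hp2.1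
    refine (hsuc p.1 (mem_range.1 hp3.1) p.2 (mem_range.1 hp3.2) hp2.2).trans
      (Nat.mul_le_mul_right _ ?_)
    refine Finset.card_le_card_of_injOn
      (fun r => if hr : r < m then ((p.1, p.2, ⟨r, hr⟩) : ℕ × ℕ × Fin m) else (0, 0, ⟨0, hm⟩)) ?_ ?_
    · intro r hr
      have hr1 := mem_filter.1 (mem_coe.1 hr)
      have hr2 := mem_range.1 hr1.1
      simp only [hr2, dif_pos]
      refine mem_coe.2 (mem_filter.2 ⟨mem_filter.2 ⟨?_, hp, hr1.2⟩, rfl⟩)
      exact mem_product.2 ⟨hp3.1, mem_product.2 ⟨hp3.2, mem_univ _⟩⟩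
    · intro r hr r' hr' he
      have hr1 := mem_range.1 (mem_filter.1 (mem_coe.1 hr)).1
      have hr2 := mem_range.1 (mem_filter.1 (mem_coe.1 hr')).1
      simp only [hr1, hr2, dif_pos, Prod.mk.injEq, Fin.mk.injEq, true_and] at he
      exact he
  -- one profile
  obtain ⟨v, hv, hSv⟩ : ∃ v < 2 ^ u,
      T.card ≤ 2 ^ u * (T.filter (fun s => vv s.1 s.2.1 = v)).card := by
    by_contra hcon
    push Not at hcon
    have e : T.card = ∑ v ∈ range (2 ^ u), (T.filter (fun s => vv s.1 s.2.1 = v)).card := by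
      refine Finset.card_eq_sum_card_fiberwise ?_
      intro s hs
      have h3 := mem_filter.1 (mem_filter.1 (mem_filter.1 hs).2.1).1
      have h4 := mem_product.1 h3.1
      exact mem_range.2 (hvv _ (mem_range.1 h4.1) _ (mem_range.1 h4.2) h3.2)
    have e1 : 2 ^ u * T.card < 2 ^ u * T.card := by
      calc 2 ^ u * T.card = ∑ v ∈ range (2 ^ u),
            2 ^ u * (T.filter (fun s => vv s.1 s.2.1 = v)).card := by
            rw [← Finset.mul_sum, ← e]
        _ < ∑ v ∈ range (2 ^ u), T.card :=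
          Finset.sum_lt_sum_of_nonempty ⟨0, mem_range.2 (by positivity)⟩
            fun v hv => hcon v (mem_range.1 hv)
        _ = _ := by simp
    exact lt_irrefl _ e1
  set S := T.filter (fun s => vv s.1 s.2.1 = v) with hS
  have hSmem : ∀ s ∈ S, s.1 < X ∧ s.2.1 < X ∧ h1 s.1 = h2 s.2.1 ∧ s.1 ∉ Bx ∧ s.2.1 ∉ Bx ∧
      h1 s.1 ∉ Bz ∧ suc s.1 s.2.1 s.2.2 ∧ vv s.1 s.2.1 = v := by
    intro s hs
    have h3 := mem_filter.1 hs
    have h4 := mem_filter.1 h3.1
    have h5 := mem_filter.1 h4.2.1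
    have h6 := mem_filter.1 h5.1
    have h7 := mem_product.1 h6.1
    exact ⟨mem_range.1 h7.1, mem_range.1 h7.2, h6.2, h5.2.1, h5.2.2.1, h5.2.2.2, h4.2.2, h3.2⟩
  have pw : ∀ x y : ℕ, (2 : ℕ) ^ x * 2 ^ y = 2 ^ (x + y) := fun x y => (pow_add 2 x y).symm
  have hXp : X = 2 ^ (40 * u) := by rw [hX, hQ, pw]; congr 1; ring
  -- the number of successes with this profile
  have cS : m * 2 ^ (58 * u - 1) ≤ S.card := by
    have e1 : X * Q * m ≤ 2 * (2 ^ u * (2 ^ u * S.card)) := by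
      calc X * Q * m ≤ 2 * P.card * m := Nat.mul_le_mul_right _ cP
        _ = 2 * (P.card * m) := by ring
        _ ≤ 2 * (T.card * 2 ^ u) := Nat.mul_le_mul_left _ cT
        _ = 2 * (2 ^ u * T.card) := by ring
        _ ≤ 2 * (2 ^ u * (2 ^ u * S.card)) :=
          Nat.mul_le_mul_left _ (Nat.mul_le_mul_left _ hSv)
    have e2 : X * Q * m = (m * 2 ^ (58 * u - 1)) * 2 ^ (2 * u + 1) := by
      rw [mul_assoc m, pw, hXp, hQ, pw, mul_comm]
      congr 2
      omega
    have e3 : 2 * (2 ^ u * (2 ^ u * S.card)) = S.card * 2 ^ (2 * u + 1) := by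
      rw [pow_succ, two_mul u, pow_add]; ring
    rw [e2, e3] at e1
    exact Nat.le_of_mul_le_mul_right e1 (by positivity)
  -- the paths
  have hpath := path (S := S) (F := fun s => a v (code X m s.1 s.2.1 s.2.2)) (X1 := range X)
    (X2 := range X) (X := X) (M := 2 ^ (u + c0 + 4)) (τ := m * 2 ^ (17 * u - c0 - 7))
    (N := m * 2 ^ (58 * u - 2)) (fun s hs => mem_range.2 (hSmem s hs).1)
    (fun s hs => mem_range.2 (hSmem s hs).2.1) (by simp) (by simp) ?_ ?_ ?_
  rotate_left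
  · intro x hx
    by_cases hB : x ∈ Bx
    · have e : S.filter (fun s => s.1 = x) = ∅ := by
        refine Finset.filter_eq_empty_iff.2 fun s hs he => ?_
        exact (hSmem s hs).2.2.2.1 (he ▸ hB)
      rw [e]; simp
    · refine hL1 v x (mem_range.1 hx) hB _ ?_
      intro y hy
      obtain ⟨s, hs, rfl⟩ := mem_image.1 hy
      obtain ⟨hs1, rfl⟩ := mem_filter.1 hs
      obtain ⟨g1, g2, g3, g4, g5, g6, g7, g8⟩ := hSmem s hs1
      exact ⟨s.2.1, g2, s.2.2, s.2.2.2, g3, g7, g8, rfl⟩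
  · intro x hx
    by_cases hB : x ∈ Bx
    · have e : S.filter (fun s => s.2.1 = x) = ∅ := by
        refine Finset.filter_eq_empty_iff.2 fun s hs he => ?_
        exact (hSmem s hs).2.2.2.2.1 (he ▸ hB)
      rw [e]; simp
    · refine hL2 v x (mem_range.1 hx) hB _ ?_
      intro y hy
      obtain ⟨s, hs, rfl⟩ := mem_image.1 hy
      obtain ⟨hs1, rfl⟩ := mem_filter.1 hs
      obtain ⟨g1, g2, g3, g4, g5, g6, g7, g8⟩ := hSmem s hs1
      exact ⟨s.1, g1, s.2.2, s.2.2.2, g3, g7, g8, rfl⟩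
  · refine le_trans (le_of_eq ?_) cS
    have e1 : 2 * (m * 2 ^ (17 * u - c0 - 7) * (2 ^ (u + c0 + 4) * X)) = m * 2 ^ (58 * u - 2) := by
      have : 2 * (m * 2 ^ (17 * u - c0 - 7) * (2 ^ (u + c0 + 4) * X)) =
          m * (2 ^ 1 * (2 ^ (17 * u - c0 - 7) * (2 ^ (u + c0 + 4) * 2 ^ (40 * u)))) := by
        rw [hXp]; ring
      rw [this, pw, pw, pw]
      congr 2
      omega
    rw [e1, ← mul_add, ← two_mul]
    congr 1
    have : (2 : ℕ) * 2 ^ (58 * u - 2) = 2 ^ 1 * 2 ^ (58 * u - 2) := by norm_num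
    rw [this, pw]
    congr 1
    omega
  · -- pairs are collisions
    set PP := ((S ×ˢ S).filter (fun p => (fun s : ℕ × ℕ × Fin m =>
      a v (code X m s.1 s.2.1 s.2.2)) p.1 = (fun s : ℕ × ℕ × Fin m =>
      a v (code X m s.1 s.2.1 s.2.2)) p.2 ∧
      ∃ s ∈ S, s.1 = p.1.1 ∧ s.2.1 = p.2.2.1)) with hPP
    have hcoll : PP.card ≤ Coll X m (2 ^ (10 * u)) (a v) h1 h2 := by
      have e : Coll X m (2 ^ (10 * u)) (a v) h1 h2 = ((range (X * X * m) ×ˢ
          range (X * X * m)).filter (fun q => (h1 (fx X m q.1) = h2 (fy X m q.1) ∧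
            h1 (fx X m q.1) = h1 (fx X m q.2) ∧ h1 (fx X m q.1) = h2 (fy X m q.2)) ∧
            (a v q.1 = a v q.2 ∧
              2 ^ (10 * u) * cnt (X * X * m) (a v) (a v q.1) < X * X * m))).card := by
        rw [Finset.card_filter, Finset.sum_product]; rfl
      rw [e]
      refine Finset.card_le_card_of_injOn (fun p => (code X m p.1.1 p.1.2.1 p.1.2.2,
        code X m p.2.1 p.2.2.1 p.2.2.2)) ?_ ?_
      · intro p hp
        have hp1 := mem_filter.1 (mem_coe.1 hp)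
        have hp2 := mem_product.1 hp1.1
        obtain ⟨hp3, s, hs, hs1, hs2⟩ := hp1.2
        obtain ⟨g1, g2, g3, g4, g5, g6, g7, g8⟩ := hSmem _ hp2.1
        obtain ⟨k1, k2, k3, k4, k5, k6, k7, k8⟩ := hSmem _ hp2.2
        obtain ⟨l1, l2, l3, l4, l5, l6, l7, l8⟩ := hSmem _ hs
        refine mem_coe.2 (mem_filter.2 ⟨mem_product.2 ⟨mem_range.2 (code_lt g1 g2 p.1.2.2.2),
          mem_range.2 (code_lt k1 k2 p.2.2.2.2)⟩, ?_, hp3, ?_⟩)
        · simp only
          rw [fx_code g2 p.1.2.2.2, fy_code g2 p.1.2.2.2, fx_code k2 p.2.2.2.2,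
            fy_code k2 p.2.2.2.2]
          rw [hs1, hs2] at l3
          exact ⟨g3, by rw [l3, k3], l3⟩
        · have := hun _ g1 _ g2 g3 g6 p.1.2.2 p.1.2.2.2 g7
          rw [g8] at this
          exact this
      · intro p hp q hq hpq
        have hp2 := mem_product.1 (mem_filter.1 (mem_coe.1 hp)).1
        have hq2 := mem_product.1 (mem_filter.1 (mem_coe.1 hq)).1
        have i1 := hSmem _ hp2.1
        have i2 := hSmem _ hp2.2
        have i3 := hSmem _ hq2.1
        have i4 := hSmem _ hq2.2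
        have key : ∀ s s' : ℕ × ℕ × Fin m, s.2.1 < X → s'.2.1 < X →
            code X m s.1 s.2.1 s.2.2 = code X m s'.1 s'.2.1 s'.2.2 → s = s' := by
          intro s s' hx hx' he
          have j1 := fx_code (x1 := s.1) hx s.2.2.2
          have j2 := fy_code (x1 := s.1) hx s.2.2.2
          have j3 := fr_code (X := X) (x1 := s.1) (x2 := s.2.1) s.2.2.2
          rw [he] at j1 j2 j3
          rw [fx_code hx' s'.2.2.2] at j1
          rw [fy_code hx' s'.2.2.2] at j2
          rw [fr_code s'.2.2.2] at j3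
          obtain ⟨s1, s2, s3⟩ := s
          obtain ⟨t1, t2, t3⟩ := s'
          simp only at j1 j2 j3
          subst j1 j2
          have : s3 = t3 := Fin.ext j3.symm
          rw [this]
        simp only [Prod.mk.injEq] at hpq
        exact Prod.ext (key _ _ i1.2.1 i3.2.1 hpq.1) (key _ _ i2.2.1 i4.2.1 hpq.2)
    have hcoll2 : Coll X m (2 ^ (10 * u)) (a v) h1 h2 ≤
        ∑ v ∈ range (2 ^ u), Coll X m (2 ^ (10 * u)) (a v) h1 h2 :=
      Finset.single_le_sum (f := fun v => Coll X m (2 ^ (10 * u)) (a v) h1 h2)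
        (fun _ _ => Nat.zero_le _) (mem_range.2 hv)
    rw [Fintype.card_fin] at hpath
    have e1 : m * 2 ^ (58 * u - 2) * (m * 2 ^ (17 * u - c0 - 7)) ^ 2 =
        m * (m ^ 2 * 2 ^ (92 * u - 2 * c0 - 16)) := by
      have : m * 2 ^ (58 * u - 2) * (m * 2 ^ (17 * u - c0 - 7)) ^ 2 =
          m * (m ^ 2 * (2 ^ (58 * u - 2) * (2 ^ (17 * u - c0 - 7) * 2 ^ (17 * u - c0 - 7)))) := by
        ring
      rw [this, pw, pw]
      congr 3
      omega
    rw [e1] at hpath
    have e2 : m ^ 2 * 2 ^ (92 * u - 2 * c0 - 16) ≤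
        ∑ v ∈ range (2 ^ u), Coll X m (2 ^ (10 * u)) (a v) h1 h2 :=
      (Nat.le_of_mul_le_mul_left hpath hm).trans (hcoll.trans hcoll2)
    have e3 : 2 ^ (10 * u) * Q ^ 3 = 2 ^ (70 * u) := by
      rw [hQ, ← pow_mul, pw]; congr 1; ring
    have e4 : X ^ 4 + 3 * 2 ^ (10 * u) * Q ^ 4 * Q ^ 3 ≤ 2 ^ (160 * u + 1) := by
      have e5 : X ^ 4 = 2 ^ (160 * u) := by rw [hXp, ← pow_mul]; congr 1; ring
      have e6 : 3 * 2 ^ (10 * u) * Q ^ 4 * Q ^ 3 = 3 * 2 ^ (150 * u) := by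
        rw [hQ, ← pow_mul, ← pow_mul, mul_assoc, mul_assoc, pw, pw]; congr 2; ring
      have e7 : 3 * 2 ^ (150 * u) ≤ 2 ^ (160 * u) := by
        calc 3 * 2 ^ (150 * u) ≤ 2 ^ 2 * 2 ^ (150 * u) := Nat.mul_le_mul_right _ (by norm_num)
          _ = 2 ^ (2 + 150 * u) := by rw [pw]
          _ ≤ 2 ^ (160 * u) := Nat.pow_le_pow_right (by norm_num) (by omega)
      rw [e5, e6, pow_succ]
      omega
    rw [e3] at hC
    have e8 : 2 ^ (70 * u) * (m ^ 2 * 2 ^ (92 * u - 2 * c0 - 16)) ≤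
        2 ^ u * m ^ 2 * 2 ^ (160 * u + 1) :=
      (Nat.mul_le_mul_left _ e2).trans (hC.trans (Nat.mul_le_mul_left _ e4))
    have e9 : 2 ^ (70 * u) * (m ^ 2 * 2 ^ (92 * u - 2 * c0 - 16)) =
        m ^ 2 * 2 ^ (70 * u + (92 * u - 2 * c0 - 16)) := by rw [pow_add]; ring
    have e10 : 2 ^ u * m ^ 2 * 2 ^ (160 * u + 1) = m ^ 2 * 2 ^ (u + (160 * u + 1)) := by
      rw [pow_add 2 u]; ring
    rw [e9, e10] at e8
    have e11 := Nat.le_of_mul_le_mul_left e8 (by positivity)
    have e12 := (Nat.pow_le_pow_iff_right (by norm_num : 1 < 2)).1 e11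
    omega

end Pool.Agent.X215.SP
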