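import Mathlib

/-! Paths of length three in the success set. -/

namespace Pool.Agent.X215.SP

open Finset

variable {α β ρ : Type*} [DecidableEq α] [DecidableEq β] [DecidableEq ρ] [Fintype ρ]

/-- Few elements are light. -/
theorem light {γ δ : Type*} [DecidableEq γ] [DecidableEq δ] {S : Finset γ} {F : γ → ℕ}
    {f : γ → δ} {X1 : Finset δ} {X M τ : ℕ} (h1 : ∀ s ∈ S, f s ∈ X1) (hc : X1.card ≤ X)
    (hL : ∀ x ∈ X1, ((S.filter (fun s => f s = x)).image F).card ≤ M) :
    (S.filter (fun s => (S.filter (fun t => f t = f s ∧ F t = F s)).card < τ)).card ≤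
      τ * (M * X) := by
  set A := S.filter (fun s => (S.filter (fun t => f t = f s ∧ F t = F s)).card < τ) with hA
  have h2 : A.card ≤ τ * (A.image (fun s => (f s, F s))).card := by
    refine Finset.card_le_mul_card_image _ _ ?_
    intro p hp
    obtain ⟨s, hs, rfl⟩ := mem_image.1 hp
    have h3 := (mem_filter.1 hs).2
    refine le_trans (card_le_card ?_) h3.le
    intro t ht
    rw [mem_filter] at ht ⊢
    have h4 := (mem_filter.1 ht.1).1
    simp only [Prod.mk.injEq] at ht
    exact ⟨h4, ht.2.1, ht.2.2⟩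
  have h3 : (A.image (fun s => (f s, F s))).card ≤ M * X := by
    refine le_trans (Finset.card_le_mul_card_image (f := Prod.fst) _ M ?_) ?_
    · intro x hx
      obtain ⟨p, hp, rfl⟩ := mem_image.1 hx
      obtain ⟨s, hs, rfl⟩ := mem_image.1 hp
      refine le_trans ?_ (hL (f s) (h1 s (mem_filter.1 hs).1))
      refine Finset.card_le_card_of_injOn Prod.snd ?_ ?_
      · intro q hq
        have hq' := mem_filter.1 (mem_coe.1 hq)
        obtain ⟨t, ht, rfl⟩ := mem_image.1 hq'.1
        refine mem_coe.2 (mem_image.2 ⟨t, mem_filter.2 ⟨(mem_filter.1 ht).1, hq'.2⟩, rfl⟩)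
      · intro q hq q' hq' hqq
        have e1 := (mem_filter.1 (mem_coe.1 hq)).2
        have e2 := (mem_filter.1 (mem_coe.1 hq')).2
        exact Prod.ext (e1.trans e2.symm) hqq
    · refine Nat.mul_le_mul_left _ (le_trans (card_le_card ?_) hc)
      intro x hx
      obtain ⟨p, hp, rfl⟩ := mem_image.1 hx
      obtain ⟨s, hs, rfl⟩ := mem_image.1 hp
      exact h1 s (mem_filter.1 hs).1
  exact h2.trans (Nat.mul_le_mul_left _ h3)

/-- Many successes with short lists give many collisions. -/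
theorem path {S : Finset (α × β × ρ)} {F : α × β × ρ → ℕ} {X1 : Finset α} {X2 : Finset β}
    {X M τ N : ℕ} (h1 : ∀ s ∈ S, s.1 ∈ X1) (h2 : ∀ s ∈ S, s.2.1 ∈ X2) (hc1 : X1.card ≤ X)
    (hc2 : X2.card ≤ X)
    (hL1 : ∀ x ∈ X1, ((S.filter (fun s => s.1 = x)).image F).card ≤ M)
    (hL2 : ∀ x ∈ X2, ((S.filter (fun s => s.2.1 = x)).image F).card ≤ M)
    (hs : 2 * (τ * (M * X)) + N ≤ S.card) :
    N * τ ^ 2 ≤ Fintype.card ρ * ((S ×ˢ S).filter (fun p => F p.1 = F p.2 ∧
      ∃ s ∈ S, s.1 = p.1.1 ∧ s.2.1 = p.2.2.1)).card := by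
  classical
  let P1 : α × β × ρ → Finset (α × β × ρ) := fun s => S.filter (fun t => t.1 = s.1 ∧ F t = F s)
  let P2 : α × β × ρ → Finset (α × β × ρ) := fun s =>
    S.filter (fun t => t.2.1 = s.2.1 ∧ F t = F s)
  have hA := light (f := fun s : α × β × ρ => s.1) (F := F) (τ := τ) h1 hc1 hL1
  have hB := light (f := fun s : α × β × ρ => s.2.1) (F := F) (τ := τ) h2 hc2 hL2
  let T : Finset ((α × β × ρ) × (α × β × ρ) × (α × β × ρ)) :=
    S.biUnion fun s => (P1 s ×ˢ P2 s).map ⟨fun p => (s, p), fun p q h => (Prod.mk.inj h).2⟩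
  have hT : T.card = ∑ s ∈ S, (P1 s).card * (P2 s).card := by
    rw [Finset.card_biUnion]
    · refine Finset.sum_congr rfl fun s _ => ?_
      rw [Finset.card_map, Finset.card_product]
    · intro s _ s' _ hss
      rw [Function.onFun, Finset.disjoint_left]
      intro q hq hq'
      obtain ⟨p, _, rfl⟩ := mem_map.1 hq
      obtain ⟨p', _, h'⟩ := mem_map.1 hq'
      exact hss (Prod.mk.inj h').1.symm
  have hlow : N * τ ^ 2 ≤ T.card := by
    rw [hT]
    let G := S.filter (fun s => ¬ (P1 s).card < τ ∧ ¬ (P2 s).card < τ)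
    have hG : N ≤ G.card := by
      have h3 : S ⊆ G ∪ ((S.filter (fun s => (P1 s).card < τ)) ∪
          (S.filter (fun s => (P2 s).card < τ))) := by
        intro s hsS
        by_cases a : (P1 s).card < τ
        · exact mem_union_right _ (mem_union_left _ (mem_filter.2 ⟨hsS, a⟩))
        · by_cases b : (P2 s).card < τ
          · exact mem_union_right _ (mem_union_right _ (mem_filter.2 ⟨hsS, b⟩))
          · exact mem_union_left _ (mem_filter.2 ⟨hsS, a, b⟩)
      have h4 := (card_le_card h3).trans ((card_union_le _ _).trans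
        (Nat.add_le_add_left (card_union_le _ _) _))
      have h5 : (S.filter (fun s => (P1 s).card < τ)).card ≤ τ * (M * X) := hA
      have h6 : (S.filter (fun s => (P2 s).card < τ)).card ≤ τ * (M * X) := hB
      omega
    calc N * τ ^ 2 ≤ G.card * τ ^ 2 := Nat.mul_le_mul_right _ hG
      _ = ∑ s ∈ G, τ ^ 2 := by rw [Finset.sum_const, smul_eq_mul]
      _ ≤ ∑ s ∈ G, (P1 s).card * (P2 s).card := by
        refine Finset.sum_le_sum fun s hsG => ?_
        have h7 := (mem_filter.1 hsG).2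
        rw [pow_two]
        exact Nat.mul_le_mul (not_lt.1 h7.1) (not_lt.1 h7.2)
      _ ≤ _ := Finset.sum_le_sum_of_subset (filter_subset _ _)
  refine hlow.trans ?_
  refine (Finset.card_le_mul_card_image (f := Prod.snd) T (Fintype.card ρ) ?_).trans ?_
  · intro p hp
    have h3 : (T.filter (fun t => t.2 = p)).card ≤
        ((univ : Finset ρ).image (fun r => (((p.1.1, p.2.2.1, r) : α × β × ρ), p))).card := by
      refine card_le_card ?_
      intro t ht
      obtain ⟨ht1, ht2⟩ := mem_filter.1 ht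
      obtain ⟨s, hsS, hs2⟩ := mem_biUnion.1 ht1
      obtain ⟨q, hq, rfl⟩ := mem_map.1 hs2
      obtain ⟨q1, q2⟩ := mem_product.1 hq
      have e1 := (mem_filter.1 q1).2.1
      have e2 := (mem_filter.1 q2).2.1
      change q = p at ht2
      subst ht2
      refine mem_image.2 ⟨s.2.2, mem_univ _, ?_⟩
      change ((q.1.1, q.2.2.1, s.2.2), q) = (s, q)
      rw [e1, e2]
    exact h3.trans (card_image_le.trans (by rw [Finset.card_univ]))
  · refine Nat.mul_le_mul_left _ (card_le_card ?_)
    intro p hp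
    obtain ⟨t, ht, rfl⟩ := mem_image.1 hp
    obtain ⟨s, hsS, hs2⟩ := mem_biUnion.1 ht
    obtain ⟨q, hq, rfl⟩ := mem_map.1 hs2
    obtain ⟨q1, q2⟩ := mem_product.1 hq
    have e1 := mem_filter.1 q1
    have e2 := mem_filter.1 q2
    refine mem_filter.2 ⟨mem_product.2 ⟨e1.1, e2.1⟩, ?_, s, hsS, e1.2.1.symm, e2.2.1.symm⟩
    exact e1.2.2.trans e2.2.2.symm

end Pool.Agent.X215.SP
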