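import Pool.Agent.X215.SP.Perm
import Pool.Agent.X215.SP.Path

/-! Existence of tables with few collisions, in terms of numbers. -/

namespace Pool.Agent.X215.SP

open Finset Equiv

theorem sum_mul_range (f : ℕ → ℕ) (a b : ℕ) :
    ∑ c ∈ range (a * b), f c = ∑ i ∈ range a, ∑ j ∈ range b, f (i * b + j) := by
  induction a with
  | zero => simp
  | succ a ih =>
    rw [Finset.sum_range_succ, ← ih, add_mul, one_mul, Finset.sum_range_add]

/-- The configuration `(x₁, x₂, r)`. -/
def code (X m x1 x2 r : ℕ) : ℕ := (x1 * X + x2) * m + r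

/-- First coordinate of a configuration. -/
def fx (X m c : ℕ) : ℕ := c / m / X
/-- Second coordinate of a configuration. -/
def fy (X m c : ℕ) : ℕ := c / m % X
/-- Third coordinate of a configuration. -/
def fr (m c : ℕ) : ℕ := c % m

section code

variable {X m x1 x2 r : ℕ}

theorem code_div (hr : r < m) : code X m x1 x2 r / m = x1 * X + x2 := by
  unfold code
  rw [mul_comm, Nat.mul_add_div (by omega), Nat.div_eq_of_lt hr, add_zero]

theorem fx_code (h2 : x2 < X) (hr : r < m) : fx X m (code X m x1 x2 r) = x1 := by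
  unfold fx
  rw [code_div hr, mul_comm, Nat.mul_add_div (by omega), Nat.div_eq_of_lt h2, add_zero]

theorem fy_code (h2 : x2 < X) (hr : r < m) : fy X m (code X m x1 x2 r) = x2 := by
  unfold fy
  rw [code_div hr, mul_comm, Nat.mul_add_mod, Nat.mod_eq_of_lt h2]

theorem fr_code (hr : r < m) : fr m (code X m x1 x2 r) = r := by
  unfold fr code
  rw [mul_comm, Nat.mul_add_mod, Nat.mod_eq_of_lt hr]

theorem code_lt (h1 : x1 < X) (h2 : x2 < X) (hr : r < m) : code X m x1 x2 r < X * X * m := by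
  unfold code
  have h3 : x1 * X + x2 + 1 ≤ X * X := by
    calc x1 * X + x2 + 1 ≤ x1 * X + X := by omega
      _ = (x1 + 1) * X := by ring
      _ ≤ X * X := Nat.mul_le_mul_right _ h1
  calc (x1 * X + x2) * m + r < (x1 * X + x2) * m + m := by omega
    _ = (x1 * X + x2 + 1) * m := by ring
    _ ≤ X * X * m := Nat.mul_le_mul_right _ h3

end code

theorem sum_code (f : ℕ → ℕ) (X m : ℕ) :
    ∑ c ∈ range (X * X * m), f c =
      ∑ x1 ∈ range X, ∑ x2 ∈ range X, ∑ r ∈ range m, f (code X m x1 x2 r) := by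
  rw [sum_mul_range, sum_mul_range]
  rfl

/-- The number of configurations with output `y`. -/
def cnt (C : ℕ) (a : ℕ → ℕ) (y : ℕ) : ℕ := ∑ c ∈ range C, if a c = y then 1 else 0

/-- Collisions of unpopular outputs between configurations in the same block. -/
def Coll (X m K : ℕ) (a : ℕ → ℕ) (h1 h2 : ℕ → ℕ) : ℕ :=
  ∑ c ∈ range (X * X * m), ∑ c' ∈ range (X * X * m),
    if (h1 (fx X m c) = h2 (fy X m c) ∧ h1 (fx X m c) = h1 (fx X m c') ∧
      h1 (fx X m c) = h2 (fy X m c')) ∧ (a c = a c' ∧ K * cnt (X * X * m) a (a c) < X * X * m)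
    then 1 else 0

/-- The number of collisions of unpopular outputs. -/
theorem unpop (C K : ℕ) (a : ℕ → ℕ) :
    K * ∑ c ∈ range C, ∑ c' ∈ range C, (if a c = a c' ∧ K * cnt C a (a c) < C then 1 else 0) ≤
      C * C := by
  rw [Finset.mul_sum]
  calc _ ≤ ∑ c ∈ range C, C := by
        refine Finset.sum_le_sum fun c _ => ?_
        by_cases h : K * cnt C a (a c) < C
        · have e : ∑ c' ∈ range C, (if a c = a c' ∧ K * cnt C a (a c) < C then 1 else 0) =
              cnt C a (a c) := by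
            unfold cnt
            refine Finset.sum_congr rfl fun c' _ => ?_
            have h' : K * (∑ c' ∈ range C, if a c' = a c then 1 else 0) < C := h
            by_cases h2 : a c = a c'
            · rw [if_pos ⟨h2, h'⟩, if_pos h2.symm]
            · have h3 : a c' ≠ a c := fun h3 => h2 h3.symm
              simp [h2, h3]
          rw [e]
          exact h.le
        · simp [h]
    _ = C * C := by simp

/-- **Tables with few collisions.** -/
theorem exists_tables {Q d m K V : ℕ} (hd : 0 < d) (hQ : 0 < Q) (a : ℕ → ℕ → ℕ) :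
    ∃ h1 h2 : ℕ → ℕ, (∀ x, h1 x < Q) ∧ (∀ x, h2 x < Q) ∧
      (∀ z < Q, (∑ x ∈ range (Q * d), if h1 x = z then 1 else 0) = d) ∧
      (∀ z < Q, (∑ x ∈ range (Q * d), if h2 x = z then 1 else 0) = d) ∧
      K * Q ^ 3 * ∑ v ∈ range V, Coll (Q * d) m K (a v) h1 h2 ≤
        V * m ^ 2 * ((Q * d) ^ 4 + 3 * K * Q ^ 4 * d ^ 3) := by
  set X := Q * d with hX
  set C := X * X * m with hC
  let e : Fin Q × Fin d ≃ Fin X := finProdFinEquiv
  -- conversion of sums
  have hconv : ∀ f : ℕ → ℕ, ∑ x ∈ range X, f x = ∑ p : Fin Q × Fin d, f (e p) := by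
    intro f
    rw [Finset.sum_range, ← Equiv.sum_comp e]
  let wv : ℕ → ℕ → ℕ → ℕ → ℕ → ℕ := fun v x1 x2 y1 y2 => ∑ r ∈ range m, ∑ r' ∈ range m,
    if a v (code X m x1 x2 r) = a v (code X m y1 y2 r') ∧
      K * cnt C (a v) (a v (code X m x1 x2 r)) < C then 1 else 0
  let w : Fin Q × Fin d → Fin Q × Fin d → Fin Q × Fin d → Fin Q × Fin d → ℕ :=
    fun x1 x2 y1 y2 => ∑ v ∈ range V, wv v (e x1) (e x2) (e y1) (e y2)
  have hB : ∀ x1 x2 y1 y2, w x1 x2 y1 y2 ≤ V * m ^ 2 := by
    intro x1 x2 y1 y2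
    calc w x1 x2 y1 y2 ≤ ∑ v ∈ range V, m ^ 2 := by
          refine Finset.sum_le_sum fun v _ => ?_
          calc wv v (e x1) (e x2) (e y1) (e y2) ≤ ∑ r ∈ range m, ∑ r' ∈ range m, 1 := by
                refine Finset.sum_le_sum fun r _ => Finset.sum_le_sum fun r' _ => ?_
                split_ifs <;> omega
            _ = m ^ 2 := by simp [pow_two]
      _ = V * m ^ 2 := by simp
  obtain ⟨σ₁, σ₂, hσ⟩ := exists_coll (W := ∑ x1, ∑ x2, ∑ y1, ∑ y2, w x1 x2 y1 y2) hd hQ w hB le_rfl
  -- the total number of unpopular collisions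
  have htot : ∀ v, ∑ x1 : Fin Q × Fin d, ∑ x2 : Fin Q × Fin d, ∑ y1 : Fin Q × Fin d,
      ∑ y2 : Fin Q × Fin d, wv v (e x1) (e x2) (e y1) (e y2) =
      ∑ c ∈ range C, ∑ c' ∈ range C,
        (if a v c = a v c' ∧ K * cnt C (a v) (a v c) < C then 1 else 0) := by
    intro v
    rw [hC, sum_code]
    simp only [hconv]
    refine Finset.sum_congr rfl fun x1 _ => Finset.sum_congr rfl fun x2 _ => ?_
    simp only [wv]
    have : ∀ r, ∑ c' ∈ range (X * X * m), (if a v (code X m (e x1) (e x2) r) = a v c' ∧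
        K * cnt (X * X * m) (a v) (a v (code X m (e x1) (e x2) r)) < X * X * m then 1 else 0) =
        ∑ y1 : Fin Q × Fin d, ∑ y2 : Fin Q × Fin d, ∑ r' ∈ range m,
          (if a v (code X m (e x1) (e x2) r) = a v (code X m (e y1) (e y2) r') ∧
        K * cnt (X * X * m) (a v) (a v (code X m (e x1) (e x2) r)) < X * X * m then 1 else 0) := by
      intro r
      rw [sum_code]
      simp only [hconv]
    simp only [this]
    symm
    rw [Finset.sum_comm]
    refine Finset.sum_congr rfl fun y1 _ => ?_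
    rw [Finset.sum_comm]
  have hW : K * ∑ x1, ∑ x2, ∑ y1, ∑ y2, w x1 x2 y1 y2 ≤ V * (C * C) := by
    have e1 : ∑ x1, ∑ x2, ∑ y1, ∑ y2, w x1 x2 y1 y2 = ∑ v ∈ range V, ∑ c ∈ range C,
        ∑ c' ∈ range C, (if a v c = a v c' ∧ K * cnt C (a v) (a v c) < C then 1 else 0) := by
      rw [← Finset.sum_congr rfl fun v _ => htot v]
      simp only [w]
      symm
      rw [Finset.sum_comm]
      refine Finset.sum_congr rfl fun x1 _ => ?_
      rw [Finset.sum_comm]
      refine Finset.sum_congr rfl fun x2 _ => ?_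
      rw [Finset.sum_comm]
      refine Finset.sum_congr rfl fun y1 _ => ?_
      rw [Finset.sum_comm]
    rw [e1, Finset.mul_sum]
    calc _ ≤ ∑ v ∈ range V, C * C := Finset.sum_le_sum fun v _ => unpop C K (a v)
      _ = V * (C * C) := by simp
  -- the tables
  let h1 : ℕ → ℕ := fun x => if hx : x < X then ((σ₁ (e.symm ⟨x, hx⟩)).1 : ℕ) else 0
  let h2 : ℕ → ℕ := fun x => if hx : x < X then ((σ₂ (e.symm ⟨x, hx⟩)).1 : ℕ) else 0
  have h1e : ∀ p, h1 (e p) = (σ₁ p).1 := by
    intro p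
    simp only [h1, (e p).2, dif_pos]
    simp
  have h2e : ∀ p, h2 (e p) = (σ₂ p).1 := by
    intro p
    simp only [h2, (e p).2, dif_pos]
    simp
  have hfib : ∀ (σ : Perm (Fin Q × Fin d)) (z : ℕ), z < Q →
      ∑ p : Fin Q × Fin d, (if ((σ p).1 : ℕ) = z then 1 else 0) = d := by
    intro σ z hz
    rw [Equiv.sum_comp σ (fun p : Fin Q × Fin d => if ((p.1 : Fin Q) : ℕ) = z then 1 else 0),
      Fintype.sum_prod_type]
    have : ∀ i : Fin Q, ∑ _j : Fin d, (if (i : ℕ) = z then 1 else 0) =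
        if i = ⟨z, hz⟩ then d else 0 := by
      intro i
      by_cases h : (i : ℕ) = z
      · have h' : i = ⟨z, hz⟩ := Fin.ext h
        simp [h']
      · have h' : i ≠ ⟨z, hz⟩ := fun hc => h (by rw [hc])
        simp [h, h']
    simp [this]
  refine ⟨h1, h2, ?_, ?_, ?_, ?_, ?_⟩
  · intro x
    simp only [h1]
    split_ifs
    · exact Fin.is_lt _
    · exact hQ
  · intro x
    simp only [h2]
    split_ifs
    · exact Fin.is_lt _
    · exact hQ
  · intro z hz
    rw [hconv]
    simp only [h1e]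
    exact hfib σ₁ z hz
  · intro z hz
    rw [hconv]
    simp only [h2e]
    exact hfib σ₂ z hz
  · -- the number of collisions
    have hcoll : ∑ v ∈ range V, Coll X m K (a v) h1 h2 = coll w σ₁ σ₂ := by
      have hv : ∀ v, Coll X m K (a v) h1 h2 = ∑ x1 : Fin Q × Fin d, ∑ x2 : Fin Q × Fin d,
          ∑ y1 : Fin Q × Fin d, ∑ y2 : Fin Q × Fin d,
          if (σ₁ x1).1 = (σ₂ x2).1 ∧ (σ₁ x1).1 = (σ₁ y1).1 ∧ (σ₁ x1).1 = (σ₂ y2).1 then
            wv v (e x1) (e x2) (e y1) (e y2) else 0 := by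
        intro v
        unfold Coll
        rw [sum_code]
        simp only [hconv]
        refine Finset.sum_congr rfl fun x1 _ => Finset.sum_congr rfl fun x2 _ => ?_
        have h3 : ∀ r ∈ range m, ∑ c' ∈ range (X * X * m),
            (if (h1 (fx X m (code X m (e x1) (e x2) r)) = h2 (fy X m (code X m (e x1) (e x2) r)) ∧
              h1 (fx X m (code X m (e x1) (e x2) r)) = h1 (fx X m c') ∧
              h1 (fx X m (code X m (e x1) (e x2) r)) = h2 (fy X m c')) ∧
              (a v (code X m (e x1) (e x2) r) = a v c' ∧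
                K * cnt (X * X * m) (a v) (a v (code X m (e x1) (e x2) r)) < X * X * m)
              then 1 else 0) =
            ∑ y1 : Fin Q × Fin d, ∑ y2 : Fin Q × Fin d, ∑ r' ∈ range m,
              if (σ₁ x1).1 = (σ₂ x2).1 ∧ (σ₁ x1).1 = (σ₁ y1).1 ∧ (σ₁ x1).1 = (σ₂ y2).1 then
              (if a v (code X m (e x1) (e x2) r) = a v (code X m (e y1) (e y2) r') ∧
                K * cnt C (a v) (a v (code X m (e x1) (e x2) r)) < C then 1 else 0) else 0 := by
          intro r hr
          rw [sum_code]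
          simp only [hconv]
          refine Finset.sum_congr rfl fun y1 _ => Finset.sum_congr rfl fun y2 _ => ?_
          refine Finset.sum_congr rfl fun r' hr' => ?_
          have hr1 := mem_range.1 hr
          have hr2 := mem_range.1 hr'
          rw [fx_code (e x2).2 hr1, fy_code (e x2).2 hr1, fx_code (e y2).2 hr2,
            fy_code (e y2).2 hr2, h1e, h1e, h2e, h2e]
          simp only [Fin.val_inj, ite_and, hC]
        rw [Finset.sum_congr rfl h3]
        rw [Finset.sum_comm]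
        refine Finset.sum_congr rfl fun y1 _ => ?_
        rw [Finset.sum_comm]
        refine Finset.sum_congr rfl fun y2 _ => ?_
        by_cases hc : (σ₁ x1).1 = (σ₂ x2).1 ∧ (σ₁ x1).1 = (σ₁ y1).1 ∧ (σ₁ x1).1 = (σ₂ y2).1
        · simp only [if_pos hc]
          rfl
        · simp only [if_neg hc, Finset.sum_const_zero]
      rw [Finset.sum_congr rfl fun v _ => hv v]
      unfold coll
      simp only [w]
      rw [Finset.sum_comm]
      refine Finset.sum_congr rfl fun x1 _ => ?_
      rw [Finset.sum_comm]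
      refine Finset.sum_congr rfl fun x2 _ => ?_
      rw [Finset.sum_comm]
      refine Finset.sum_congr rfl fun y1 _ => ?_
      rw [Finset.sum_comm]
      refine Finset.sum_congr rfl fun y2 _ => ?_
      by_cases hc : (σ₁ x1).1 = (σ₂ x2).1 ∧ (σ₁ x1).1 = (σ₁ y1).1 ∧ (σ₁ x1).1 = (σ₂ y2).1
      · simp only [if_pos hc]
      · simp only [if_neg hc, Finset.sum_const_zero]
    rw [hcoll]
    calc K * Q ^ 3 * coll w σ₁ σ₂ = K * (Q ^ 3 * coll w σ₁ σ₂) := by ring
      _ ≤ K * (∑ x1, ∑ x2, ∑ y1, ∑ y2, w x1 x2 y1 y2 + 3 * Q ^ 4 * d ^ 3 * (V * m ^ 2)) :=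
        Nat.mul_le_mul_left _ hσ
      _ = K * ∑ x1, ∑ x2, ∑ y1, ∑ y2, w x1 x2 y1 y2 + K * (3 * Q ^ 4 * d ^ 3 * (V * m ^ 2)) := by
        ring
      _ ≤ V * (C * C) + K * (3 * Q ^ 4 * d ^ 3 * (V * m ^ 2)) := Nat.add_le_add_right hW _
      _ = V * m ^ 2 * (X ^ 4 + 3 * K * Q ^ 4 * d ^ 3) := by rw [hC]; ring

end Pool.Agent.X215.SP
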