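import Pool.Agent.X215.SP.Str

/-! Plain Kolmogorov complexity. -/

namespace Pool.Agent.X215.SP

open Finset Encodable Pool.Agent.Helper446.RE

/-- `U` is an optimal plain decompressor: it is partial recursive and every partial recursive
decompressor `V` is simulated by `U` with a constant overhead in the length of programs. -/
def OptimalDecompressor (U : List Bool →. List Bool) : Prop :=
  Partrec U ∧ ∀ V : List Bool →. List Bool, Partrec V →
    ∃ c : ℕ, ∀ p x : List Bool, x ∈ V p → ∃ q : List Bool, x ∈ U q ∧ q.length ≤ p.length + c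

/-- Plain Kolmogorov complexity of a string with respect to the decompressor `U`. -/
noncomputable def plainC (U : List Bool →. List Bool) (x : List Bool) : ℕ :=
  sInf {m : ℕ | ∃ p : List Bool, x ∈ U p ∧ p.length = m}

variable {U : List Bool →. List Bool}

theorem plainC_le_of_mem {p x : List Bool} (h : x ∈ U p) : plainC U x ≤ p.length :=
  Nat.sInf_le ⟨p, h, rfl⟩

theorem plainC_le (hU : OptimalDecompressor U) {V : List Bool →. List Bool} (hV : Partrec V) :
    ∃ c : ℕ, ∀ p x : List Bool, x ∈ V p → plainC U x ≤ p.length + c := by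
  obtain ⟨c, hc⟩ := hU.2 V hV
  refine ⟨c, fun p x hx => ?_⟩
  obtain ⟨q, hq, hl⟩ := hc p x hx
  exact (plainC_le_of_mem hq).trans hl

theorem exists_prog (hU : OptimalDecompressor U) (x : List Bool) :
    ∃ p, x ∈ U p ∧ p.length = plainC U x := by
  obtain ⟨c, hc⟩ := hU.2 (fun p => Part.some p) (Partrec.some)
  obtain ⟨q, hq, _⟩ := hc x x (Part.mem_some x)
  exact Nat.sInf_mem (s := {m : ℕ | ∃ p : List Bool, x ∈ U p ∧ p.length = m}) ⟨q.length, q, hq, rfl⟩

/-- All strings of length at most `B`. -/
def short (B : ℕ) : Finset (List Bool) :=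
  (range (B + 1)).biUnion fun n => (range (2 ^ n)).image (str n)

theorem card_short (B : ℕ) : (short B).card < 2 ^ (B + 1) := by
  have h1 : (short B).card ≤ ∑ n ∈ range (B + 1), 2 ^ n := by
    refine (card_biUnion_le).trans (Finset.sum_le_sum fun n _ => ?_)
    exact card_image_le.trans (by simp)
  have h2 : ∑ n ∈ range (B + 1), 2 ^ n < 2 ^ (B + 1) := by
    have h3 := Nat.geomSum_eq (m := 2) le_rfl (B + 1)
    rw [h3]
    have : 0 < 2 ^ (B + 1) := by positivity
    simp
  omega

theorem mem_short {B : ℕ} {p : List Bool} (h : p.length ≤ B) : p ∈ short B :=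
  mem_biUnion.2 ⟨p.length, mem_range.2 (by omega), mem_image.2 ⟨num p, mem_range.2 (num_lt p),
    str_num p⟩⟩

/-- There are few simple strings. -/
theorem card_simple (hU : OptimalDecompressor U) {T : Finset (List Bool)} {B : ℕ}
    (h : ∀ x ∈ T, plainC U x ≤ B) : T.card < 2 ^ (B + 1) := by
  classical
  choose f hf hl using exists_prog hU
  refine lt_of_le_of_lt (Finset.card_le_card_of_injOn f ?_ ?_) (card_short B)
  · intro x hx
    exact mem_short (by rw [hl]; exact h x hx)
  · intro x _ y _ hxy
    have h1 := hf x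
    rw [hxy] at h1
    exact Part.mem_unique h1 (hf y)

/-- The same for injective families. -/
theorem card_simple' (hU : OptimalDecompressor U) {ι : Type*} {T : Finset ι} {f : ι → List Bool}
    (hf : Set.InjOn f T) {B : ℕ} (h : ∀ i ∈ T, plainC U (f i) ≤ B) : T.card < 2 ^ (B + 1) := by
  classical
  rw [← Finset.card_image_of_injOn hf]
  refine card_simple hU fun x hx => ?_
  obtain ⟨i, hi, rfl⟩ := mem_image.1 hx
  exact h i hi

end Pool.Agent.X215.SP
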