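import Mathlib

/-! Averages over permutations. -/

namespace Pool.Agent.X215.SP

open Finset Equiv

variable {α : Type*} [Fintype α] [DecidableEq α]

theorem inv1 (g : α → ℕ) (s t : α) :
    ∑ σ : Perm α, g (σ s) = ∑ σ : Perm α, g (σ t) := by
  refine Fintype.sum_equiv (Equiv.mulRight (swap s t)) _ _ fun σ => ?_
  simp [Equiv.Perm.mul_apply]

theorem inv2 (g : α → α → ℕ) {s s' t t' : α} (h : s ≠ s') (h' : t ≠ t') :
    ∑ σ : Perm α, g (σ s) (σ s') = ∑ σ : Perm α, g (σ t) (σ t') := by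
  obtain ⟨τ, h1, h2⟩ : ∃ τ : Perm α, τ t = s ∧ τ t' = s' := by
    refine ⟨swap (swap t s t') s' * swap t s, ?_, ?_⟩
    · rw [Equiv.Perm.mul_apply, swap_apply_left]
      refine swap_apply_of_ne_of_ne ?_ h
      intro hc
      have h3 : swap t s t = s := swap_apply_left _ _
      have h4 : swap t s t = swap t s t' := by rw [h3, ← hc]
      exact h' ((swap t s).injective h4)
    · rw [Equiv.Perm.mul_apply, swap_apply_left]
  refine Fintype.sum_equiv (Equiv.mulRight τ) _ _ fun σ => ?_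
  simp [Equiv.Perm.mul_apply, h1, h2]

theorem avg1 (g : α → ℕ) (s : α) :
    (∑ σ : Perm α, g (σ s)) * Fintype.card α = (Fintype.card α).factorial * ∑ x, g x := by
  have h1 : ∑ t : α, ∑ σ : Perm α, g (σ t) = (∑ σ : Perm α, g (σ s)) * Fintype.card α := by
    rw [Finset.sum_congr rfl fun t _ => inv1 g t s, Finset.sum_const, Finset.card_univ,
      smul_eq_mul, mul_comm]
  rw [← h1, Finset.sum_comm]
  have h2 : ∀ σ : Perm α, ∑ t, g (σ t) = ∑ x, g x := fun σ => Equiv.sum_comp σ g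
  rw [Finset.sum_congr rfl fun σ _ => h2 σ, Finset.sum_const, Finset.card_univ, smul_eq_mul,
    Fintype.card_perm]

theorem avg2 (g : α → α → ℕ) {s s' : α} (h : s ≠ s') :
    (∑ σ : Perm α, g (σ s) (σ s')) * (Fintype.card α * Fintype.card α - Fintype.card α) =
      (Fintype.card α).factorial * ∑ p ∈ (univ : Finset α).offDiag, g p.1 p.2 := by
  have h1 : ∑ p ∈ (univ : Finset α).offDiag, ∑ σ : Perm α, g (σ p.1) (σ p.2) =
      (∑ σ : Perm α, g (σ s) (σ s')) * (Fintype.card α * Fintype.card α - Fintype.card α) := by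
    rw [Finset.sum_congr rfl fun p hp => inv2 g (mem_offDiag.1 hp).2.2 h, Finset.sum_const,
      offDiag_card, Finset.card_univ, smul_eq_mul, mul_comm]
  rw [← h1, Finset.sum_comm]
  have h2 : ∀ σ : Perm α, ∑ p ∈ (univ : Finset α).offDiag, g (σ p.1) (σ p.2) =
      ∑ p ∈ (univ : Finset α).offDiag, g p.1 p.2 := by
    intro σ
    refine Finset.sum_nbij' (fun p => (σ p.1, σ p.2)) (fun p => (σ.symm p.1, σ.symm p.2))
      ?_ ?_ ?_ ?_ ?_
    · intro p hp
      simp only [mem_offDiag, mem_univ, true_and] at hp ⊢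
      exact fun hc => hp (σ.injective hc)
    · intro p hp
      simp only [mem_offDiag, mem_univ, true_and] at hp ⊢
      exact fun hc => hp (σ.symm.injective hc)
    · intro p _; simp
    · intro p _; simp
    · intro p _; rfl
  rw [Finset.sum_congr rfl fun σ _ => h2 σ, Finset.sum_const, Finset.card_univ, smul_eq_mul,
    Fintype.card_perm]

/-- The number of permutations sending `x` and `x'` to the block `z`. -/
def NN (Q d : ℕ) (z : Fin Q) (x x' : Fin Q × Fin d) : ℕ :=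
  ∑ σ : Perm (Fin Q × Fin d), if (σ x).1 = z ∧ (σ x').1 = z then 1 else 0

theorem NN_bound {Q d : ℕ} (hd : 0 < d) (z : Fin Q) (x x' : Fin Q × Fin d) :
    Q ^ 2 * NN Q d z x x' ≤ (Q * d).factorial * (1 + if x = x' then Q else 0) := by
  have hQ : 0 < Q := lt_of_le_of_lt (Nat.zero_le _) z.2
  have hcard : Fintype.card (Fin Q × Fin d) = Q * d := by simp
  by_cases hx : x = x'
  · subst hx
    have h1 := avg1 (α := Fin Q × Fin d) (fun y => if y.1 = z ∧ y.1 = z then 1 else 0) x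
    rw [hcard] at h1
    have h2 : ∑ y : Fin Q × Fin d, (if y.1 = z ∧ y.1 = z then 1 else 0) = d := by
      rw [Fintype.sum_prod_type]
      simp
    rw [h2] at h1
    change NN Q d z x x * (Q * d) = (Q * d).factorial * d at h1
    have h3 : NN Q d z x x * Q = (Q * d).factorial := by
      have : (NN Q d z x x * Q) * d = (Q * d).factorial * d := by rw [← h1]; ring
      exact Nat.eq_of_mul_eq_mul_right hd this
    simp only [if_true]
    calc Q ^ 2 * NN Q d z x x = (NN Q d z x x * Q) * Q := by ring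
      _ = (Q * d).factorial * Q := by rw [h3]
      _ ≤ (Q * d).factorial * (1 + Q) := Nat.mul_le_mul_left _ (by omega)
  · have h1 := avg2 (α := Fin Q × Fin d)
      (fun y y' => if y.1 = z ∧ y'.1 = z then 1 else 0) hx
    rw [hcard] at h1
    have h2 : ∑ p ∈ (univ : Finset (Fin Q × Fin d)).offDiag,
        (if p.1.1 = z ∧ p.2.1 = z then 1 else 0) = d * d - d := by
      rw [← Finset.card_filter]
      have h3 : ((univ : Finset (Fin Q × Fin d)).offDiag).filter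
          (fun p => p.1.1 = z ∧ p.2.1 = z) =
          ((univ : Finset (Fin d)).image (fun i => (z, i))).offDiag := by
        ext ⟨⟨a, b⟩, ⟨a', b'⟩⟩
        simp only [mem_filter, mem_offDiag, mem_univ, true_and, mem_image, Prod.mk.injEq]
        constructor
        · rintro ⟨h4, rfl, rfl⟩
          exact ⟨⟨b, rfl, rfl⟩, ⟨b', rfl, rfl⟩, h4⟩
        · rintro ⟨⟨_, rfl, rfl⟩, ⟨_, rfl, rfl⟩, h4⟩
          exact ⟨h4, rfl, rfl⟩
      rw [h3, offDiag_card, Finset.card_image_of_injective _ (fun a b hab => by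
        simpa using hab), Finset.card_univ, Fintype.card_fin]
    rw [h2] at h1
    change NN Q d z x x' * (Q * d * (Q * d) - Q * d) = (Q * d).factorial * (d * d - d) at h1
    simp only [hx, if_false, add_zero, mul_one]
    -- `Q d ≥ 2`
    have hQd : 2 ≤ Q * d := by
      by_contra hc
      have h4 : Fintype.card (Fin Q × Fin d) ≤ 1 := by rw [hcard]; omega
      exact hx ((Fintype.card_le_one_iff.1 h4) x x')
    have h5 : 0 < Q * d * (Q * d) - Q * d := by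
      have : Q * d * 1 < Q * d * (Q * d) := Nat.mul_lt_mul_of_pos_left (by omega) (by omega)
      omega
    refine Nat.le_of_mul_le_mul_right ?_ h5
    calc Q ^ 2 * NN Q d z x x' * (Q * d * (Q * d) - Q * d)
        = Q ^ 2 * (NN Q d z x x' * (Q * d * (Q * d) - Q * d)) := by ring
      _ = (Q * d).factorial * (Q ^ 2 * (d * d - d)) := by rw [h1]; ring
      _ ≤ (Q * d).factorial * (Q * d * (Q * d) - Q * d) := by
        refine Nat.mul_le_mul_left _ ?_
        rw [Nat.mul_sub]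
        have h6 : Q * d ≤ Q ^ 2 * d := by
          rw [pow_two]
          exact Nat.mul_le_mul_right _ (Nat.le_mul_self Q)
        have h7 : Q ^ 2 * (d * d) = Q * d * (Q * d) := by ring
        omega

/-- Collisions, weighted with `w`, of the blocks given by `σ₁`, `σ₂`. -/
def coll {Q d : ℕ} (w : Fin Q × Fin d → Fin Q × Fin d → Fin Q × Fin d → Fin Q × Fin d → ℕ)
    (σ₁ σ₂ : Perm (Fin Q × Fin d)) : ℕ :=
  ∑ x1, ∑ x2, ∑ y1, ∑ y2, if (σ₁ x1).1 = (σ₂ x2).1 ∧ (σ₁ x1).1 = (σ₁ y1).1 ∧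
    (σ₁ x1).1 = (σ₂ y2).1 then w x1 x2 y1 y2 else 0

theorem comm4 {ι κ : Type*} [Fintype ι] [Fintype κ] (f : ι → κ → κ → κ → κ → ℕ) :
    ∑ s : ι, ∑ x1, ∑ x2, ∑ y1, ∑ y2, f s x1 x2 y1 y2 =
      ∑ x1, ∑ x2, ∑ y1, ∑ y2, ∑ s : ι, f s x1 x2 y1 y2 := by
  rw [Finset.sum_comm]
  refine Finset.sum_congr rfl fun x1 _ => ?_
  rw [Finset.sum_comm]
  refine Finset.sum_congr rfl fun x2 _ => ?_
  rw [Finset.sum_comm]
  refine Finset.sum_congr rfl fun y1 _ => ?_
  rw [Finset.sum_comm]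

theorem sum_coll {Q d : ℕ}
    (w : Fin Q × Fin d → Fin Q × Fin d → Fin Q × Fin d → Fin Q × Fin d → ℕ) :
    ∑ σ₁, ∑ σ₂, coll w σ₁ σ₂ = ∑ x1, ∑ x2, ∑ y1, ∑ y2,
      (∑ z : Fin Q, NN Q d z x1 y1 * NN Q d z x2 y2) * w x1 x2 y1 y2 := by
  unfold coll
  -- move the sums over permutations inside
  have h1 : ∀ x1 x2 y1 y2 : Fin Q × Fin d,
      ∑ σ₁ : Perm (Fin Q × Fin d), ∑ σ₂ : Perm (Fin Q × Fin d),
        (if (σ₁ x1).1 = (σ₂ x2).1 ∧ (σ₁ x1).1 = (σ₁ y1).1 ∧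
          (σ₁ x1).1 = (σ₂ y2).1 then w x1 x2 y1 y2 else 0) =
      (∑ z : Fin Q, NN Q d z x1 y1 * NN Q d z x2 y2) * w x1 x2 y1 y2 := by
    intro x1 x2 y1 y2
    unfold NN
    rw [Finset.sum_mul]
    have h2 : ∀ z : Fin Q, (∑ σ : Perm (Fin Q × Fin d),
        if (σ x1).1 = z ∧ (σ y1).1 = z then 1 else 0) *
        (∑ σ : Perm (Fin Q × Fin d), if (σ x2).1 = z ∧ (σ y2).1 = z then 1 else 0) *
        w x1 x2 y1 y2 = ∑ σ₁ : Perm (Fin Q × Fin d), ∑ σ₂ : Perm (Fin Q × Fin d),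
        (if (σ₁ x1).1 = z then (if (σ₁ y1).1 = z ∧ (σ₂ x2).1 = z ∧ (σ₂ y2).1 = z then
          w x1 x2 y1 y2 else 0) else 0) := by
      intro z
      rw [Finset.sum_mul_sum, Finset.sum_mul]
      refine Finset.sum_congr rfl fun σ₁ _ => ?_
      rw [Finset.sum_mul]
      refine Finset.sum_congr rfl fun σ₂ _ => ?_
      by_cases a1 : (σ₁ x1).1 = z <;> by_cases a2 : (σ₁ y1).1 = z <;>
        by_cases a3 : (σ₂ x2).1 = z <;> by_cases a4 : (σ₂ y2).1 = z <;> simp [a1, a2, a3, a4]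
    refine Eq.trans ?_ (Finset.sum_congr rfl fun z _ => (h2 z).symm)
    symm
    rw [Finset.sum_comm]
    refine Finset.sum_congr rfl fun σ₁ _ => ?_
    rw [Finset.sum_comm]
    refine Finset.sum_congr rfl fun σ₂ _ => ?_
    rw [Finset.sum_ite_eq]
    simp only [mem_univ, if_true]
    refine if_congr ⟨?_, ?_⟩ rfl rfl
    · rintro ⟨a, b, c⟩; exact ⟨b.symm, a.symm, c.symm⟩
    · rintro ⟨a, b, c⟩; exact ⟨b.symm, a.symm, c.symm⟩
  refine (Finset.sum_congr rfl fun σ₁ _ => comm4 _).trans ?_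
  rw [comm4]
  refine Finset.sum_congr rfl fun x1 _ => ?_
  refine Finset.sum_congr rfl fun x2 _ => ?_
  refine Finset.sum_congr rfl fun y1 _ => ?_
  refine Finset.sum_congr rfl fun y2 _ => ?_
  exact h1 x1 x2 y1 y2

/-- Some blocks have few collisions. -/
theorem exists_coll {Q d B W : ℕ} (hd : 0 < d) (hQ : 0 < Q)
    (w : Fin Q × Fin d → Fin Q × Fin d → Fin Q × Fin d → Fin Q × Fin d → ℕ)
    (hB : ∀ x1 x2 y1 y2, w x1 x2 y1 y2 ≤ B)
    (hW : ∑ x1, ∑ x2, ∑ y1, ∑ y2, w x1 x2 y1 y2 ≤ W) :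
    ∃ σ₁ σ₂ : Perm (Fin Q × Fin d), Q ^ 3 * coll w σ₁ σ₂ ≤ W + 3 * Q ^ 4 * d ^ 3 * B := by
  by_contra hcon
  push Not at hcon
  have h1 : ∑ σ₁ : Perm (Fin Q × Fin d), ∑ σ₂ : Perm (Fin Q × Fin d),
      (W + 3 * Q ^ 4 * d ^ 3 * B) < ∑ σ₁ : Perm (Fin Q × Fin d), ∑ σ₂ : Perm (Fin Q × Fin d),
      Q ^ 3 * coll w σ₁ σ₂ := by
    refine Finset.sum_lt_sum_of_nonempty ⟨1, mem_univ _⟩ fun σ₁ _ => ?_
    refine Finset.sum_lt_sum_of_nonempty ⟨1, mem_univ _⟩ fun σ₂ _ => ?_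
    exact hcon σ₁ σ₂
  have hperm : Fintype.card (Perm (Fin Q × Fin d)) = (Q * d).factorial := by
    rw [Fintype.card_perm]; simp
  simp only [Finset.sum_const, Finset.card_univ, smul_eq_mul, hperm] at h1
  simp only [← Finset.mul_sum] at h1
  rw [sum_coll] at h1
  set P := (Q * d).factorial with hP
  -- bound of the right side
  have h2 : Q ^ 4 * ∑ x1, ∑ x2, ∑ y1, ∑ y2,
      (∑ z : Fin Q, NN Q d z x1 y1 * NN Q d z x2 y2) * w x1 x2 y1 y2 ≤
      Q * (P * P) * (W + 3 * Q ^ 4 * d ^ 3 * B) := by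
    have h3 : ∀ x1 x2 y1 y2 : Fin Q × Fin d,
        Q ^ 4 * ((∑ z : Fin Q, NN Q d z x1 y1 * NN Q d z x2 y2) * w x1 x2 y1 y2) ≤
        Q * (P * P) * (w x1 x2 y1 y2 + (if x1 = y1 then Q * B else 0) +
          (if x2 = y2 then Q * B else 0) +
          (if x1 = y1 then if x2 = y2 then Q ^ 2 * B else 0 else 0)) := by
      intro x1 x2 y1 y2
      have h4 : ∀ z : Fin Q, Q ^ 4 * (NN Q d z x1 y1 * NN Q d z x2 y2) ≤
          (P * P) * ((1 + if x1 = y1 then Q else 0) * (1 + if x2 = y2 then Q else 0)) := by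
        intro z
        calc Q ^ 4 * (NN Q d z x1 y1 * NN Q d z x2 y2)
            = (Q ^ 2 * NN Q d z x1 y1) * (Q ^ 2 * NN Q d z x2 y2) := by ring
          _ ≤ (P * (1 + if x1 = y1 then Q else 0)) * (P * (1 + if x2 = y2 then Q else 0)) :=
            Nat.mul_le_mul (NN_bound hd z x1 y1) (NN_bound hd z x2 y2)
          _ = _ := by ring
      have h5 : Q ^ 4 * (∑ z : Fin Q, NN Q d z x1 y1 * NN Q d z x2 y2) ≤
          Q * ((P * P) * ((1 + if x1 = y1 then Q else 0) * (1 + if x2 = y2 then Q else 0))) := by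
        rw [Finset.mul_sum]
        refine (Finset.sum_le_sum fun z _ => h4 z).trans ?_
        simp
      have h6 := hB x1 x2 y1 y2
      calc Q ^ 4 * ((∑ z : Fin Q, NN Q d z x1 y1 * NN Q d z x2 y2) * w x1 x2 y1 y2)
          = (Q ^ 4 * (∑ z : Fin Q, NN Q d z x1 y1 * NN Q d z x2 y2)) * w x1 x2 y1 y2 := by ring
        _ ≤ (Q * ((P * P) * ((1 + if x1 = y1 then Q else 0) *
            (1 + if x2 = y2 then Q else 0)))) * w x1 x2 y1 y2 := Nat.mul_le_mul_right _ h5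
        _ = Q * (P * P) * (((1 + if x1 = y1 then Q else 0) *
            (1 + if x2 = y2 then Q else 0)) * w x1 x2 y1 y2) := by ring
        _ ≤ _ := by
          refine Nat.mul_le_mul_left _ ?_
          split_ifs <;> nlinarith [Nat.mul_le_mul_left Q h6, Nat.mul_le_mul_left (Q ^ 2) h6]
    rw [Finset.mul_sum]
    simp only [Finset.mul_sum (s := (univ : Finset (Fin Q × Fin d)))]
    refine (Finset.sum_le_sum fun x1 _ => Finset.sum_le_sum fun x2 _ =>
      Finset.sum_le_sum fun y1 _ => Finset.sum_le_sum fun y2 _ => h3 x1 x2 y1 y2).trans ?_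
    simp only [← Finset.mul_sum]
    refine Nat.mul_le_mul_left _ ?_
    simp only [Finset.sum_add_distrib]
    have e1 : ∑ x1 : Fin Q × Fin d, ∑ _x2 : Fin Q × Fin d, ∑ y1 : Fin Q × Fin d,
        ∑ _y2 : Fin Q × Fin d, (if x1 = y1 then Q * B else 0) = (Q * d) ^ 3 * (Q * B) := by
      simp [Finset.sum_const, Finset.card_univ]
      ring
    have e2 : ∑ _x1 : Fin Q × Fin d, ∑ x2 : Fin Q × Fin d, ∑ _y1 : Fin Q × Fin d,
        ∑ y2 : Fin Q × Fin d, (if x2 = y2 then Q * B else 0) = (Q * d) ^ 3 * (Q * B) := by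
      simp [Finset.sum_const, Finset.card_univ]
      ring
    have e3 : ∑ x1 : Fin Q × Fin d, ∑ x2 : Fin Q × Fin d, ∑ y1 : Fin Q × Fin d,
        ∑ y2 : Fin Q × Fin d, (if x1 = y1 then if x2 = y2 then Q ^ 2 * B else 0 else 0) =
        (Q * d) ^ 2 * (Q ^ 2 * B) := by
      have : ∀ x1 x2 y1 : Fin Q × Fin d, ∑ y2 : Fin Q × Fin d,
          (if x1 = y1 then if x2 = y2 then Q ^ 2 * B else 0 else 0) =
          if x1 = y1 then Q ^ 2 * B else 0 := by
        intro x1 x2 y1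
        by_cases h : x1 = y1 <;> simp [h]
      simp only [this]
      simp [Finset.sum_const, Finset.card_univ]
      ring
    rw [e1, e2, e3]
    have e4 : (Q * d) ^ 3 * (Q * B) + (Q * d) ^ 3 * (Q * B) + (Q * d) ^ 2 * (Q ^ 2 * B) ≤
        3 * Q ^ 4 * d ^ 3 * B := by
      have e5 : (Q * d) ^ 2 * (Q ^ 2 * B) ≤ (Q * d) ^ 3 * (Q * B) := by
        calc (Q * d) ^ 2 * (Q ^ 2 * B) = Q ^ 4 * B * (d ^ 2 * 1) := by ring
          _ ≤ Q ^ 4 * B * (d ^ 2 * d) := Nat.mul_le_mul_left _ (Nat.mul_le_mul_left _ hd)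
          _ = _ := by ring
      calc _ ≤ (Q * d) ^ 3 * (Q * B) + (Q * d) ^ 3 * (Q * B) + (Q * d) ^ 3 * (Q * B) := by omega
        _ = _ := by ring
    omega
  -- contradiction
  have h7 : Q ^ 4 * (P * P * (W + 3 * Q ^ 4 * d ^ 3 * B)) <
      Q ^ 4 * (P * P * (W + 3 * Q ^ 4 * d ^ 3 * B)) := by
    have hQ4 : 0 < Q ^ 4 := by positivity
    calc Q ^ 4 * (P * P * (W + 3 * Q ^ 4 * d ^ 3 * B))
        = Q ^ 4 * (P * (P * (W + 3 * Q ^ 4 * d ^ 3 * B))) := by ring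
      _ < Q ^ 4 * (Q ^ 3 * ∑ x1, ∑ x2, ∑ y1, ∑ y2,
          (∑ z : Fin Q, NN Q d z x1 y1 * NN Q d z x2 y2) * w x1 x2 y1 y2) :=
        Nat.mul_lt_mul_of_pos_left h1 hQ4
      _ = Q ^ 3 * (Q ^ 4 * ∑ x1, ∑ x2, ∑ y1, ∑ y2,
          (∑ z : Fin Q, NN Q d z x1 y1 * NN Q d z x2 y2) * w x1 x2 y1 y2) := by ring
      _ ≤ Q ^ 3 * (Q * (P * P) * (W + 3 * Q ^ 4 * d ^ 3 * B)) := Nat.mul_le_mul_left _ h2
      _ = _ := by ring
  exact lt_irrefl _ h7

end Pool.Agent.X215.SP
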