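import Pool.Agent.Helper446.Comp

/-! Strings and numbers, computability of arithmetic. -/

namespace Pool.Agent.X215.SP

open Finset Encodable Pool.Agent.Helper446.RE

section comp

variable {α β : Type*} [Primcodable α] [Primcodable β]

@[fun_prop] theorem c_div {f g : α → ℕ} (hf : Computable f) (hg : Computable g) :
    Computable fun a => f a / g a := Primrec.nat_div.to_comp.comp hf hg

@[fun_prop] theorem c_mod {f g : α → ℕ} (hf : Computable f) (hg : Computable g) :
    Computable fun a => f a % g a := Primrec.nat_mod.to_comp.comp hf hg

@[fun_prop] theorem c_pow {f g : α → ℕ} (hf : Computable f) (hg : Computable g) :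
    Computable fun a => f a ^ g a := by
  have h := Computable.nat_rec (f := g) (g := fun _ : α => (1 : ℕ))
    (h := fun (a : α) (y : ℕ × ℕ) => y.2 * f a) hg (Computable.const 1)
    (show Computable fun x : α × (ℕ × ℕ) => x.2.2 * f x.1 by fun_prop)
  refine h.of_eq fun a => ?_
  generalize g a = n
  induction n with
  | zero => simp
  | succ n ih => rw [pow_succ, ← ih]

theorem c_sum {q : α → ℕ → ℕ} (hq : Computable fun p : α × ℕ => q p.1 p.2) {f : α → ℕ}
    (hf : Computable f) : Computable fun a => ∑ i ∈ range (f a), q a i := by
  have h1 : Computable fun x : α × (ℕ × ℕ) => q x.1 x.2.1 :=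
    hq.comp (g := fun x : α × (ℕ × ℕ) => (x.1, x.2.1)) (by fun_prop)
  have h := Computable.nat_rec (f := f) (g := fun _ : α => (0 : ℕ))
    (h := fun (a : α) (y : ℕ × ℕ) => y.2 + q a y.1) hf (Computable.const 0)
    (show Computable fun x : α × (ℕ × ℕ) => x.2.2 + q x.1 x.2.1 by fun_prop)
  refine h.of_eq fun a => ?_
  generalize f a = n
  induction n with
  | zero => simp
  | succ n ih => rw [Finset.sum_range_succ, ← ih]

theorem c_ite_eq {f g h k : α → ℕ} (hf : Computable f) (hg : Computable g) (hh : Computable h)
    (hk : Computable k) : Computable fun a => if f a = g a then h a else k a :=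
  cite (p := fun a => f a = g a) (cp_eq hf hg) hh hk

theorem c_ite_lt {f g h k : α → ℕ} (hf : Computable f) (hg : Computable g) (hh : Computable h)
    (hk : Computable k) : Computable fun a => if f a < g a then h a else k a :=
  cite (p := fun a => f a < g a) (cp_lt hf hg) hh hk

theorem c_ite_le {f g h k : α → ℕ} (hf : Computable f) (hg : Computable g) (hh : Computable h)
    (hk : Computable k) : Computable fun a => if f a ≤ g a then h a else k a :=
  cite (p := fun a => f a ≤ g a) (cp_le hf hg) hh hk

@[fun_prop] theorem c_getD {f : α → Option β} {g : α → β} (hf : Computable f)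
    (hg : Computable g) : Computable fun a => (f a).getD (g a) := Computable.option_getD hf hg

/-- Map over a range. -/
theorem c_map_range {q : α → ℕ → β} (hq : Computable fun p : α × ℕ => q p.1 p.2) {f : α → ℕ}
    (hf : Computable f) : Computable fun a => (List.range (f a)).map (q a) := by
  have h1 : Computable fun x : α × (ℕ × List β) => q x.1 x.2.1 :=
    hq.comp (g := fun x : α × (ℕ × List β) => (x.1, x.2.1)) (by fun_prop)
  have h := Computable.nat_rec (f := f) (g := fun _ : α => ([] : List β))
    (h := fun (a : α) (y : ℕ × List β) => y.2 ++ [q a y.1]) hf (Computable.const [])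
    (show Computable fun x : α × (ℕ × List β) => x.2.2 ++ [q x.1 x.2.1] by fun_prop)
  refine h.of_eq fun a => ?_
  generalize f a = n
  induction n with
  | zero => simp
  | succ n ih => rw [List.range_succ, List.map_append, ← ih]; simp

end comp

/-- The string of the `N` lowest binary digits of `x`. -/
def str (N x : ℕ) : List Bool := (List.range N).map fun i => decide (x / 2 ^ (N - 1 - i) % 2 = 1)

/-- The number with the binary expansion `l`. -/
def num (l : List Bool) : ℕ := l.foldl (fun s b => 2 * s + b.toNat) 0

@[simp] theorem length_str (N x : ℕ) : (str N x).length = N := by simp [str]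

theorem str_succ (N x : ℕ) : str (N + 1) x = str N (x / 2) ++ [decide (x % 2 = 1)] := by
  unfold str
  rw [List.range_succ, List.map_append]
  congr 1
  · refine List.map_congr_left fun i hi => ?_
    have hi' := List.mem_range.1 hi
    have e : N + 1 - 1 - i = (N - 1 - i) + 1 := by omega
    rw [e, pow_succ, mul_comm, ← Nat.div_div_eq_div_mul]
  · simp

theorem num_append (l : List Bool) (b : Bool) : num (l ++ [b]) = 2 * num l + b.toNat := by
  simp [num]

theorem num_str {N x : ℕ} (h : x < 2 ^ N) : num (str N x) = x := by
  induction N generalizing x with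
  | zero => simp at h; subst h; rfl
  | succ N ih =>
    rw [str_succ, num_append, ih (by rw [pow_succ] at h; omega)]
    rcases Nat.mod_two_eq_zero_or_one x with h1 | h1 <;> (simp [h1]; omega)

theorem num_lt (l : List Bool) : num l < 2 ^ l.length := by
  induction l using List.reverseRecOn with
  | nil => simp [num]
  | append_singleton l b ih =>
    rw [num_append, List.length_append, List.length_singleton, pow_succ]
    cases b <;> simp <;> omega

theorem str_num (l : List Bool) : str l.length (num l) = l := by
  induction l using List.reverseRecOn with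
  | nil => rfl
  | append_singleton l b ih =>
    rw [num_append, List.length_append, List.length_singleton, str_succ]
    have h1 : (2 * num l + b.toNat) / 2 = num l := by cases b <;> simp <;> omega
    have h2 : decide ((2 * num l + b.toNat) % 2 = 1) = b := by
      cases b
      · simp
      · simp [Nat.add_mod]
    rw [h1, h2, ih]

theorem str_inj {N x y : ℕ} (hx : x < 2 ^ N) (hy : y < 2 ^ N) (h : str N x = str N y) : x = y := by
  rw [← num_str hx, h, num_str hy]

@[fun_prop] theorem c_str {α : Type*} [Primcodable α] {f g : α → ℕ} (hf : Computable f)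
    (hg : Computable g) : Computable fun a => str (f a) (g a) := by
  unfold str
  refine c_map_range (q := fun (a : α) i => decide (g a / 2 ^ (f a - 1 - i) % 2 = 1)) ?_ hf
  exact cdecide (p := fun x : α × ℕ => g x.1 / 2 ^ (f x.1 - 1 - x.2) % 2 = 1)
    (cp_eq (f := fun x : α × ℕ => g x.1 / 2 ^ (f x.1 - 1 - x.2) % 2) (g := fun _ => 1)
      (by fun_prop) (by fun_prop))

@[fun_prop] theorem c_num {α : Type*} [Primcodable α] {f : α → List Bool} (hf : Computable f) :
    Computable fun a => num (f a) := by
  unfold num
  refine list_foldl (h := fun (_ : α) (p : ℕ × Bool) => 2 * p.1 + p.2.toNat) hf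
    (Computable.const 0) ?_
  have hb : Computable Bool.toNat := (Primrec.dom_finite Bool.toNat).to_comp
  have h2 : Computable fun x : α × (ℕ × Bool) => x.2.2.toNat :=
    hb.comp (by fun_prop : Computable fun x : α × (ℕ × Bool) => x.2.2)
  unfold Computable₂
  fun_prop

end Pool.Agent.X215.SP
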