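import Pool.Agent.X215.SP.Tab

/-! Profiles, and the simulations used in the proof. -/

namespace Pool.Agent.X215.SP

open Finset Encodable Pool.Agent.Helper446 Pool.Agent.Helper446.RE

/-- The subtuple of the list `z` of strings given by `i`: it consists of the strings number `j` of
`z` (in increasing order of `j`, starting from `0`) for which the binary digit number `j` of `i` is
`1`. -/
def sub (z : List (List Bool)) (i : ℕ) : List (List Bool) :=
  ((List.range z.length).filter fun j => i.testBit j).map fun j => z.getD j []

/-- The complexity profile of the tuple `z`: the list of the complexities of all the subtuples. -/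
noncomputable def profile (U : List Bool →. List Bool) (enc : List (List Bool) → List Bool)
    (z : List (List Bool)) : List ℕ :=
  (List.range (2 ^ z.length)).map fun i => plainC U (enc (sub z i))

/-- The profiles of the tuples `z` and `z'` differ by at most `κ` in every coordinate. -/
def Close (U : List Bool →. List Bool) (enc : List (List Bool) → List Bool) (κ : ℝ)
    (z z' : List (List Bool)) : Prop :=
  z'.length = z.length ∧ ∀ i < 2 ^ z.length,
    |(plainC U (enc (sub z' i)) : ℝ) - (plainC U (enc (sub z i)) : ℝ)| ≤ κ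

theorem filter_one (K b : ℕ) : (List.range K).filter (fun j => decide (b = j)) =
    if b < K then [b] else [] := by
  induction K with
  | zero => simp
  | succ K ih =>
    rw [List.range_succ, List.filter_append, ih]
    by_cases h : b = K
    · subst h; simp
    · have h1 : (b < K + 1) ↔ b < K := by omega
      simp [h, h1]

theorem filter_two (K : ℕ) {a b : ℕ} (hab : a < b) :
    (List.range K).filter (fun j => decide (a = j) || decide (b = j)) =
    if b < K then [a, b] else if a < K then [a] else [] := by
  induction K with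
  | zero => simp
  | succ K ih =>
    rw [List.range_succ, List.filter_append, ih]
    by_cases h : b = K
    · subst h
      have h1 : a < b + 1 := by omega
      simp [hab]
    · by_cases h' : a = K
      · subst h'
        have h2 : ¬ b < a := by omega
        have h3 : ¬ b < a + 1 := by omega
        simp [h2, h3]
      · have h1 : (b < K + 1) ↔ b < K := by omega
        have h2 : (a < K + 1) ↔ a < K := by omega
        simp [h, h', h1, h2]

theorem sub_one {z : List (List Bool)} {b : ℕ} (hb : b < z.length) :
    sub z (2 ^ b) = [z.getD b []] := by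
  unfold sub
  have h : (fun j => (2 ^ b).testBit j) = fun j => decide (b = j) := by
    funext j; exact Nat.testBit_two_pow
  rw [h, filter_one, if_pos hb]
  rfl

theorem sub_two {z : List (List Bool)} {a b : ℕ} (hab : a < b) (hb : b < z.length) :
    sub z (2 ^ a ||| 2 ^ b) = [z.getD a [], z.getD b []] := by
  unfold sub
  have h : (fun j => (2 ^ a ||| 2 ^ b).testBit j) = fun j => decide (a = j) || decide (b = j) := by
    funext j; rw [Nat.testBit_or, Nat.testBit_two_pow, Nat.testBit_two_pow]
  rw [h, filter_two _ hab, if_pos hb]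
  rfl

/-- The first two given strings, filled up with empty strings. -/
def xs (k u i j : ℕ) : List (List Bool) :=
  [str (40 * u) i, str (40 * u) j] ++ List.replicate (k - 2) []

/-- The common information, filled up with empty strings. -/
def ys (m u z : ℕ) : List (List Bool) := [str (20 * u) z] ++ List.replicate (m - 1) []

theorem length_xs {k : ℕ} (hk : 2 ≤ k) (u i j : ℕ) : (xs k u i j).length = k := by
  simp [xs]; omega

theorem length_ys {m : ℕ} (hm : 1 ≤ m) (u z : ℕ) : (ys m u z).length = m := by
  simp [ys]; omega

theorem xs_zero (k u i j : ℕ) (w : List (List Bool)) :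
    (xs k u i j ++ w).getD 0 [] = str (40 * u) i := by simp [xs]

theorem xs_one (k u i j : ℕ) (w : List (List Bool)) :
    (xs k u i j ++ w).getD 1 [] = str (40 * u) j := by simp [xs]

theorem xs_k {k : ℕ} (hk : 2 ≤ k) (u i j : ℕ) (w : List (List Bool)) :
    (xs k u i j ++ w).getD k [] = w.headD [] := by
  have h1 : (xs k u i j).length = k := length_xs hk u i j
  rw [List.getD_eq_getElem?_getD, List.getElem?_append_right (by omega), h1, Nat.sub_self]
  cases w <;> simp

theorem total_length {k m : ℕ} (u i j z : ℕ) :
    ((xs k u i j ++ ys m u z).map List.length).sum = 100 * u := by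
  simp [xs, ys]
  ring

section

variable {α : Type*} [Primcodable α]

theorem c_xs {k : ℕ} {u i j : α → ℕ} (hu : Computable u) (hi : Computable i)
    (hj : Computable j) : Computable fun a => xs k (u a) (i a) (j a) := by
  unfold xs
  fun_prop

theorem c_ys {k : ℕ} {u i : α → ℕ} (hu : Computable u) (hi : Computable i) :
    Computable fun a => ys k (u a) (i a) := by
  unfold ys
  fun_prop

theorem c_pick (J : List ℕ) {z : α → List (List Bool)} (hz : Computable z) :
    Computable fun a => J.map fun j => (z a).getD j [] := by
  induction J with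
  | nil => exact Computable.const []
  | cons j J ih =>
    simp only [List.map_cons, List.getD_eq_getElem?_getD] at ih ⊢
    fun_prop

theorem c_headD {f : α → List (List Bool)} (hf : Computable f) :
    Computable fun a => (f a).headD [] := by
  have h : Computable fun a => ((f a)[0]?).getD [] := by fun_prop
  refine h.of_eq fun a => ?_
  cases f a <;> simp

end

variable {U : List Bool →. List Bool} {enc : List (List Bool) → List Bool}

/-- Profiles are bounded. -/
theorem profile_bound (hU : OptimalDecompressor U) (henc : Computable enc) {k m : ℕ}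
    (hk : 2 ≤ k) (hm : 1 ≤ m) : ∃ c : ℕ, ∀ u i j z, i < 2 ^ (40 * u) → j < 2 ^ (40 * u) →
      z < 2 ^ (20 * u) → ∀ s < 2 ^ (k + m),
        plainC U (enc (sub (xs k u i j ++ ys m u z) s)) ≤ 100 * u + c := by
  have h1 : ∀ s, ∃ c : ℕ, ∀ u i j z, i < 2 ^ (40 * u) → j < 2 ^ (40 * u) →
      z < 2 ^ (20 * u) → plainC U (enc (sub (xs k u i j ++ ys m u z) s)) ≤ 100 * u + c := by
    intro s
    let J := (List.range (k + m)).filter fun j => s.testBit j
    have hV : Computable fun p : List Bool =>
        enc (J.map fun q => (xs k (p.length / 100) (num p / 2 ^ (60 * (p.length / 100)))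
          (num p / 2 ^ (20 * (p.length / 100)) % 2 ^ (40 * (p.length / 100))) ++
          ys m (p.length / 100) (num p % 2 ^ (20 * (p.length / 100)))).getD q []) := by
      refine henc.comp (c_pick J ?_)
      have a1 : Computable fun p : List Bool =>
          xs k (p.length / 100) (num p / 2 ^ (60 * (p.length / 100)))
          (num p / 2 ^ (20 * (p.length / 100)) % 2 ^ (40 * (p.length / 100))) :=
        c_xs (by fun_prop) (by fun_prop) (by fun_prop)
      have a2 : Computable fun p : List Bool =>
          ys m (p.length / 100) (num p % 2 ^ (20 * (p.length / 100))) :=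
        c_ys (by fun_prop) (by fun_prop)
      fun_prop
    obtain ⟨c, hc⟩ := plainC_le hU hV.partrec
    refine ⟨c, fun u i j z hi hj hz => ?_⟩
    have e60 : 2 ^ (60 * u) = 2 ^ (20 * u) * 2 ^ (40 * u) := by rw [← pow_add]; congr 1; ring
    have e100 : 2 ^ (100 * u) = 2 ^ (40 * u) * 2 ^ (60 * u) := by rw [← pow_add]; congr 1; ring
    have hjz : z + 2 ^ (20 * u) * j < 2 ^ (60 * u) := by
      rw [e60]
      calc z + 2 ^ (20 * u) * j < 2 ^ (20 * u) * (j + 1) := by rw [mul_add]; omega
        _ ≤ _ := Nat.mul_le_mul_left _ hj
    have hlt : z + 2 ^ (20 * u) * j + 2 ^ (60 * u) * i < 2 ^ (100 * u) := by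
      rw [e100]
      calc _ < 2 ^ (60 * u) * (i + 1) := by rw [mul_add]; omega
        _ ≤ 2 ^ (60 * u) * 2 ^ (40 * u) := Nat.mul_le_mul_left _ hi
        _ = _ := by ring
    have h2 := hc (str (100 * u) (z + 2 ^ (20 * u) * j + 2 ^ (60 * u) * i)) _ (Part.mem_some _)
    have e1 : 100 * u / 100 = u := by omega
    simp only [length_str, e1, num_str hlt] at h2
    have d1 : (z + 2 ^ (20 * u) * j + 2 ^ (60 * u) * i) / 2 ^ (60 * u) = i := by
      rw [Nat.add_mul_div_left _ _ (by positivity), Nat.div_eq_of_lt hjz, zero_add]
    have d2 : (z + 2 ^ (20 * u) * j + 2 ^ (60 * u) * i) / 2 ^ (20 * u) % 2 ^ (40 * u) = j := by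
      have : z + 2 ^ (20 * u) * j + 2 ^ (60 * u) * i =
          z + 2 ^ (20 * u) * (j + 2 ^ (40 * u) * i) := by rw [e60]; ring
      rw [this, Nat.add_mul_div_left _ _ (by positivity), Nat.div_eq_of_lt hz, zero_add,
        Nat.add_mul_mod_self_left, Nat.mod_eq_of_lt hj]
    have d3 : (z + 2 ^ (20 * u) * j + 2 ^ (60 * u) * i) % 2 ^ (20 * u) = z := by
      have : z + 2 ^ (20 * u) * j + 2 ^ (60 * u) * i =
          z + 2 ^ (20 * u) * (j + 2 ^ (40 * u) * i) := by rw [e60]; ring
      rw [this, Nat.add_mul_mod_self_left, Nat.mod_eq_of_lt hz]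
    rw [d1, d2, d3] at h2
    have e2 : (xs k u i j ++ ys m u z).length = k + m := by
      rw [List.length_append, length_xs hk, length_ys hm]
    unfold sub
    rw [e2]
    exact h2
  choose f hf using h1
  refine ⟨(range (2 ^ (k + m))).sup f, fun u i j z hi hj hz s hs => ?_⟩
  have h2 := Finset.le_sup (f := f) (mem_range.2 hs)
  exact (hf s u i j z hi hj hz).trans (by omega)

/-- The pairs given by a table are simple. -/
theorem side_bound (hU : OptimalDecompressor U) (henc : Computable enc) {L : ℕ → List ℕ}
    (hL : Computable L) : ∃ c : ℕ, ∀ u i, i < 2 ^ (40 * u) →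
      plainC U (enc [str (40 * u) i, str (20 * u) (tb (L u) i)]) ≤ 40 * u + c := by
  have hV : Computable fun p : List Bool =>
      enc [p, str (20 * (p.length / 40)) (tb (L (p.length / 40)) (num p))] := by
    have h1 : Computable fun p : List Bool => tb (L (p.length / 40)) (num p) :=
      c_tb (by fun_prop) (by fun_prop)
    exact henc.comp (by fun_prop)
  obtain ⟨c, hc⟩ := plainC_le hU hV.partrec
  refine ⟨c, fun u i hi => ?_⟩
  have h2 := hc (str (40 * u) i) _ (Part.mem_some _)
  have e1 : 40 * u / 40 = u := by omega
  simp only [length_str, e1, num_str hi] at h2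
  exact h2

/-- The popular outputs are simple. -/
theorem pop_bound (hU : OptimalDecompressor U) (henc : Computable enc) {m : ℕ → ℕ}
    {a : ℕ → ℕ → ℕ → ℕ} (hm : Computable m)
    (ha : Computable fun p : ℕ × ℕ × ℕ => a p.1 p.2.1 p.2.2) :
    ∃ c : ℕ, ∀ u v (y : List Bool), 0 < m u → v < 2 ^ u →
      Pop (2 ^ (20 * u) * 2 ^ (20 * u)) (m u) (2 ^ (10 * u)) (a u v) (encode y) →
      plainC U (enc [y]) ≤ 11 * u + c := by
  obtain ⟨g, hg, hg2⟩ := exists_pop hm ha
  have hV : Partrec fun p : List Bool =>
      ((g (p.length / 11, num p / 2 ^ (10 * (p.length / 11)),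
        num p % 2 ^ (10 * (p.length / 11)))).bind
        fun n => (Part.ofOption (decode (α := List Bool) n))).map fun y => enc [y] := by
    refine Partrec.map ?_ ?_
    · refine Partrec.bind (hg.comp (by fun_prop)) ?_
      exact (Computable.decode.comp Computable.snd).ofOption
    · have h1 : Computable fun x : List Bool × List Bool => enc [x.2] :=
        henc.comp (by fun_prop)
      exact h1
  obtain ⟨c, hc⟩ := plainC_le hU hV
  refine ⟨c, fun u v y hmu hv hy => ?_⟩
  set X := 2 ^ (20 * u) * 2 ^ (20 * u) with hX
  have hC : 0 < X * X * m u := by positivity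
  have hr := rk_lt hC hy
  have h1 := hg2 u v _ hy
  rw [← hX] at h1
  set r := rk X (m u) (2 ^ (10 * u)) (a u v) (encode y) with hrdef
  have hlt : r + 2 ^ (10 * u) * v < 2 ^ (11 * u) := by
    have e : 2 ^ (11 * u) = 2 ^ (10 * u) * 2 ^ u := by rw [← pow_add]; congr 1; ring
    rw [e]
    calc r + 2 ^ (10 * u) * v < 2 ^ (10 * u) * (v + 1) := by rw [mul_add]; omega
      _ ≤ _ := Nat.mul_le_mul_left _ hv
  have h2 := hc (str (11 * u) (r + 2 ^ (10 * u) * v)) (enc [y]) ?_
  · rwa [length_str] at h2
  · rw [length_str, num_str hlt]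
    have e1 : 11 * u / 11 = u := by omega
    rw [e1]
    have d1 : (r + 2 ^ (10 * u) * v) / 2 ^ (10 * u) = v := by
      rw [Nat.add_mul_div_left _ _ (by positivity), Nat.div_eq_of_lt hr, zero_add]
    have d2 : (r + 2 ^ (10 * u) * v) % 2 ^ (10 * u) = r := by
      rw [Nat.add_mul_mod_self_left, Nat.mod_eq_of_lt hr]
    rw [d1, d2]
    refine (Part.mem_map_iff _).2 ⟨y, ?_, rfl⟩
    refine Part.mem_bind_iff.2 ⟨encode y, h1, ?_⟩
    simp

end Pool.Agent.X215.SP
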