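import Pool.Agent.X215.SP.Find
import Pool.Agent.X215.SP.Kol

/-! Computable tables with few collisions. -/

namespace Pool.Agent.X215.SP

open Finset Encodable Pool.Agent.Helper446 Pool.Agent.Helper446.RE

section generic

variable {α : Type*} [Primcodable α]

theorem c_cnt {C y : α → ℕ} {A : α → ℕ → ℕ} (hC : Computable C)
    (hA : Computable fun p : α × ℕ => A p.1 p.2) (hy : Computable y) :
    Computable fun s => cnt (C s) (A s) (y s) := by
  unfold cnt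
  refine c_sum (q := fun s c => if A s c = y s then 1 else 0) ?_ hC
  exact c_ite_eq hA (by fun_prop) (by fun_prop) (by fun_prop)

theorem c_Coll {X m K : α → ℕ} {A h1 h2 : α → ℕ → ℕ} (hX : Computable X) (hm : Computable m)
    (hK : Computable K) (hA : Computable fun p : α × ℕ => A p.1 p.2)
    (hh1 : Computable fun p : α × ℕ => h1 p.1 p.2)
    (hh2 : Computable fun p : α × ℕ => h2 p.1 p.2) :
    Computable fun s => Coll (X s) (m s) (K s) (A s) (h1 s) (h2 s) := by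
  unfold Coll fx fy
  refine c_sum (q := fun s c => ∑ c' ∈ range (X s * X s * m s),
    if (h1 s (c / m s / X s) = h2 s (c / m s % X s) ∧ h1 s (c / m s / X s) = h1 s (c' / m s / X s) ∧
      h1 s (c / m s / X s) = h2 s (c' / m s % X s)) ∧ (A s c = A s c' ∧
      K s * cnt (X s * X s * m s) (A s) (A s c) < X s * X s * m s) then 1 else 0) ?_ (by fun_prop)
  refine c_sum (α := α × ℕ) (q := fun p c' =>
    if (h1 p.1 (p.2 / m p.1 / X p.1) = h2 p.1 (p.2 / m p.1 % X p.1) ∧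
      h1 p.1 (p.2 / m p.1 / X p.1) = h1 p.1 (c' / m p.1 / X p.1) ∧
      h1 p.1 (p.2 / m p.1 / X p.1) = h2 p.1 (c' / m p.1 % X p.1)) ∧ (A p.1 p.2 = A p.1 c' ∧
      K p.1 * cnt (X p.1 * X p.1 * m p.1) (A p.1) (A p.1 p.2) < X p.1 * X p.1 * m p.1)
      then 1 else 0) ?_ (by fun_prop)
  have e1 : Computable fun p : (α × ℕ) × ℕ => h1 p.1.1 (p.1.2 / m p.1.1 / X p.1.1) :=
    hh1.comp (g := fun p : (α × ℕ) × ℕ => (p.1.1, p.1.2 / m p.1.1 / X p.1.1)) (by fun_prop)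
  have e2 : Computable fun p : (α × ℕ) × ℕ => h2 p.1.1 (p.1.2 / m p.1.1 % X p.1.1) :=
    hh2.comp (g := fun p : (α × ℕ) × ℕ => (p.1.1, p.1.2 / m p.1.1 % X p.1.1)) (by fun_prop)
  have e3 : Computable fun p : (α × ℕ) × ℕ => h1 p.1.1 (p.2 / m p.1.1 / X p.1.1) :=
    hh1.comp (g := fun p : (α × ℕ) × ℕ => (p.1.1, p.2 / m p.1.1 / X p.1.1)) (by fun_prop)
  have e4 : Computable fun p : (α × ℕ) × ℕ => h2 p.1.1 (p.2 / m p.1.1 % X p.1.1) :=
    hh2.comp (g := fun p : (α × ℕ) × ℕ => (p.1.1, p.2 / m p.1.1 % X p.1.1)) (by fun_prop)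
  have e5 : Computable fun p : (α × ℕ) × ℕ => A p.1.1 p.1.2 := hA.comp Computable.fst
  have e6 : Computable fun p : (α × ℕ) × ℕ => A p.1.1 p.2 :=
    hA.comp (g := fun p : (α × ℕ) × ℕ => (p.1.1, p.2)) (by fun_prop)
  have e7 : Computable fun p : (α × ℕ) × ℕ =>
      cnt (X p.1.1 * X p.1.1 * m p.1.1) (A p.1.1) (A p.1.1 p.1.2) := by
    refine c_cnt (α := (α × ℕ) × ℕ) (A := fun p c => A p.1.1 c) (by fun_prop) ?_ e5
    exact hA.comp (g := fun p : ((α × ℕ) × ℕ) × ℕ => (p.1.1.1, p.2)) (by fun_prop)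
  have e8 := c_ite_lt (f := fun p : (α × ℕ) × ℕ =>
      K p.1.1 * cnt (X p.1.1 * X p.1.1 * m p.1.1) (A p.1.1) (A p.1.1 p.1.2))
    (g := fun p : (α × ℕ) × ℕ => X p.1.1 * X p.1.1 * m p.1.1) (h := fun _ => 1) (k := fun _ => 0)
    (by fun_prop) (by fun_prop) (by fun_prop) (by fun_prop)
  have e9 := c_ite_eq e5 e6 e8 (k := fun _ => 0) (by fun_prop)
  have e10 := c_ite_eq e1 e4 e9 (k := fun _ => 0) (by fun_prop)
  have e11 := c_ite_eq e1 e3 e10 (k := fun _ => 0) (by fun_prop)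
  have e12 := c_ite_eq e1 e2 e11 (k := fun _ => 0) (by fun_prop)
  simp only [ite_and]
  exact e12

end generic

/-- A table as a function. -/
def tb (L : List ℕ) (x : ℕ) : ℕ := (L[x]?).getD 0

theorem c_tb {α : Type*} [Primcodable α] {L : α → List ℕ} {x : α → ℕ} (hL : Computable L)
    (hx : Computable x) : Computable fun a => tb (L a) (x a) := by
  unfold tb
  fun_prop

/-- The requirements on the tables. -/
def Cr (m : ℕ → ℕ) (a : ℕ → ℕ → ℕ → ℕ) (u : ℕ) (T : List ℕ × List ℕ) : Prop :=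
  ((∀ x < 2 ^ (20 * u) * 2 ^ (20 * u), tb T.1 x < 2 ^ (20 * u)) ∧
    (∀ x < 2 ^ (20 * u) * 2 ^ (20 * u), tb T.2 x < 2 ^ (20 * u))) ∧
  ((∀ z < 2 ^ (20 * u), (∑ x ∈ range (2 ^ (20 * u) * 2 ^ (20 * u)),
      if tb T.1 x = z then 1 else 0) = 2 ^ (20 * u)) ∧
    (∀ z < 2 ^ (20 * u), (∑ x ∈ range (2 ^ (20 * u) * 2 ^ (20 * u)),
      if tb T.2 x = z then 1 else 0) = 2 ^ (20 * u))) ∧
  2 ^ (10 * u) * (2 ^ (20 * u)) ^ 3 * ∑ v ∈ range (2 ^ u),
      Coll (2 ^ (20 * u) * 2 ^ (20 * u)) (m u) (2 ^ (10 * u)) (a u v) (tb T.1) (tb T.2) ≤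
    2 ^ u * m u ^ 2 * ((2 ^ (20 * u) * 2 ^ (20 * u)) ^ 4 +
      3 * 2 ^ (10 * u) * (2 ^ (20 * u)) ^ 4 * (2 ^ (20 * u)) ^ 3)

theorem re_Cr {m : ℕ → ℕ} {a : ℕ → ℕ → ℕ → ℕ} (hm : Computable m)
    (ha : Computable fun p : ℕ × ℕ × ℕ => a p.1 p.2.1 p.2.2) :
    REPred fun x : ℕ × (List ℕ × List ℕ) => Cr m a x.1 x.2 := by
  unfold Cr
  have t1 : ∀ (f : List ℕ × List ℕ → List ℕ), Computable f →
      REPred fun x : ℕ × (List ℕ × List ℕ) => ∀ y < 2 ^ (20 * x.1) * 2 ^ (20 * x.1),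
        tb (f x.2) y < 2 ^ (20 * x.1) := by
    intro f hf
    refine all_lt (p := fun (x : ℕ × (List ℕ × List ℕ)) y => tb (f x.2) y < 2 ^ (20 * x.1)) ?_
      (by fun_prop)
    exact RE.lt (c_tb (by fun_prop) (by fun_prop)) (by fun_prop)
  have t2 : ∀ (f : List ℕ × List ℕ → List ℕ), Computable f →
      REPred fun x : ℕ × (List ℕ × List ℕ) => ∀ z < 2 ^ (20 * x.1),
        (∑ y ∈ range (2 ^ (20 * x.1) * 2 ^ (20 * x.1)),
          if tb (f x.2) y = z then 1 else 0) = 2 ^ (20 * x.1) := by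
    intro f hf
    refine all_lt (p := fun (x : ℕ × (List ℕ × List ℕ)) z =>
      (∑ y ∈ range (2 ^ (20 * x.1) * 2 ^ (20 * x.1)),
          if tb (f x.2) y = z then 1 else 0) = 2 ^ (20 * x.1)) ?_ (by fun_prop)
    refine RE.eq ?_ (by fun_prop)
    refine c_sum (q := fun (w : (ℕ × (List ℕ × List ℕ)) × ℕ) y =>
      if tb (f w.1.2) y = w.2 then 1 else 0) ?_ (by fun_prop)
    exact c_ite_eq (c_tb (by fun_prop) (by fun_prop)) (by fun_prop) (by fun_prop) (by fun_prop)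
  refine RE.and (RE.and (t1 Prod.fst (by fun_prop)) (t1 Prod.snd (by fun_prop))) (RE.and
    (RE.and (t2 Prod.fst (by fun_prop)) (t2 Prod.snd (by fun_prop))) ?_)
  refine RE.le ?_ (by fun_prop)
  have h1 : Computable fun x : ℕ × (List ℕ × List ℕ) => ∑ v ∈ range (2 ^ x.1),
      Coll (2 ^ (20 * x.1) * 2 ^ (20 * x.1)) (m x.1) (2 ^ (10 * x.1)) (a x.1 v)
        (tb x.2.1) (tb x.2.2) := by
    refine c_sum (q := fun (x : ℕ × (List ℕ × List ℕ)) v =>
      Coll (2 ^ (20 * x.1) * 2 ^ (20 * x.1)) (m x.1) (2 ^ (10 * x.1)) (a x.1 v)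
        (tb x.2.1) (tb x.2.2)) ?_ (by fun_prop)
    refine c_Coll (α := (ℕ × (List ℕ × List ℕ)) × ℕ)
      (A := fun p c => a p.1.1 p.2 c) (h1 := fun p => tb p.1.2.1) (h2 := fun p => tb p.1.2.2)
      (by fun_prop) (by fun_prop) (by fun_prop) ?_ ?_ ?_
    · exact ha.comp (g := fun p : ((ℕ × (List ℕ × List ℕ)) × ℕ) × ℕ =>
        (p.1.1.1, p.1.2, p.2)) (by fun_prop)
    · exact c_tb (by fun_prop) (by fun_prop)
    · exact c_tb (by fun_prop) (by fun_prop)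
  fun_prop

theorem fx_lt {X m c : ℕ} (h : c < X * X * m) : fx X m c < X := by
  unfold fx
  have hm : 0 < m := by
    rcases Nat.eq_zero_or_pos m with h1 | h1
    · subst h1; simp at h
    · exact h1
  have h1 : c / m < X * X := Nat.div_lt_of_lt_mul (by rw [mul_comm]; exact h)
  exact Nat.div_lt_of_lt_mul h1

theorem fy_lt {X m c : ℕ} (h : c < X * X * m) : fy X m c < X := by
  unfold fy
  refine Nat.mod_lt _ ?_
  rcases Nat.eq_zero_or_pos X with h1 | h1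
  · subst h1; simp at h
  · exact h1

theorem fr_lt {X m c : ℕ} (h : c < X * X * m) : fr m c < m := by
  unfold fr
  refine Nat.mod_lt _ ?_
  rcases Nat.eq_zero_or_pos m with h1 | h1
  · subst h1; simp at h
  · exact h1

theorem tb_map {X x : ℕ} (h : ℕ → ℕ) (hx : x < X) : tb ((List.range X).map h) x = h x := by
  unfold tb
  simp [hx]

theorem exists_Cr (m : ℕ → ℕ) (a : ℕ → ℕ → ℕ → ℕ) (u : ℕ) : ∃ T, Cr m a u T := by
  obtain ⟨h1, h2, b1, b2, b3, b4, b5⟩ := exists_tables (Q := 2 ^ (20 * u)) (d := 2 ^ (20 * u))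
    (m := m u) (K := 2 ^ (10 * u)) (V := 2 ^ u) (by positivity) (by positivity) (a u)
  set X := 2 ^ (20 * u) * 2 ^ (20 * u) with hX
  refine ⟨((List.range X).map h1, (List.range X).map h2), ⟨?_, ?_⟩, ⟨?_, ?_⟩, ?_⟩
  · intro x hx
    rw [tb_map h1 hx]; exact b1 x
  · intro x hx
    rw [tb_map h2 hx]; exact b2 x
  · intro z hz
    refine Eq.trans ?_ (b3 z hz)
    refine Finset.sum_congr rfl fun x hx => ?_
    rw [tb_map h1 (mem_range.1 hx)]
  · intro z hz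
    refine Eq.trans ?_ (b4 z hz)
    refine Finset.sum_congr rfl fun x hx => ?_
    rw [tb_map h2 (mem_range.1 hx)]
  · refine le_trans (le_of_eq ?_) b5
    congr 1
    refine Finset.sum_congr rfl fun v _ => ?_
    unfold Coll
    refine Finset.sum_congr rfl fun c hc => Finset.sum_congr rfl fun c' hc' => ?_
    have e1 := mem_range.1 hc
    have e2 := mem_range.1 hc'
    rw [tb_map h1 (fx_lt e1), tb_map h2 (fy_lt e1), tb_map h1 (fx_lt e2), tb_map h2 (fy_lt e2)]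

/-- **Computable tables.** -/
theorem exists_tab {m : ℕ → ℕ} {a : ℕ → ℕ → ℕ → ℕ} (hm : Computable m)
    (ha : Computable fun p : ℕ × ℕ × ℕ => a p.1 p.2.1 p.2.2) :
    ∃ T : ℕ → List ℕ × List ℕ, Computable T ∧ ∀ u, Cr m a u (T u) := by
  obtain ⟨f, hf, h1, h2⟩ := uniformize (r := fun u T => Cr m a u T) (re_Cr hm ha)
  have hd : ∀ u, (f u).Dom := fun u => (h1 u).2 (exists_Cr m a u)
  refine ⟨fun u => (f u).get (hd u), ?_, fun u => h2 u _ (Part.get_mem (hd u))⟩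
  exact hf.of_eq_tot fun u => Part.get_mem (hd u)

/-- The values popular for `v`, and their ranks. -/
def Pop (X m K : ℕ) (a : ℕ → ℕ) (y : ℕ) : Prop := X * X * m ≤ K * cnt (X * X * m) a y

instance (X m K : ℕ) (a : ℕ → ℕ) (y : ℕ) : Decidable (Pop X m K a y) := by
  unfold Pop; infer_instance

/-- The rank of `y` among the popular values. -/
def rk (X m K : ℕ) (a : ℕ → ℕ) (y : ℕ) : ℕ :=
  ∑ y' ∈ range y, if X * X * m ≤ K * cnt (X * X * m) a y' then 1 else 0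

theorem rk_mono {X m K : ℕ} {a : ℕ → ℕ} {y y' : ℕ} (h : Pop X m K a y) (hy : y < y') :
    rk X m K a y < rk X m K a y' := by
  unfold rk
  have h0 : X * X * m ≤ K * cnt (X * X * m) a y := h
  have h1 : ∑ i ∈ range y, (if X * X * m ≤ K * cnt (X * X * m) a i then 1 else 0) + 1 =
      ∑ i ∈ range (y + 1), (if X * X * m ≤ K * cnt (X * X * m) a i then 1 else 0) := by
    rw [Finset.sum_range_succ, if_pos h0]
  have h2 : ∑ i ∈ range (y + 1), (if X * X * m ≤ K * cnt (X * X * m) a i then 1 else 0) ≤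
      ∑ i ∈ range y', (if X * X * m ≤ K * cnt (X * X * m) a i then 1 else 0) := by
    refine Finset.sum_le_sum_of_subset ?_
    intro i hi
    rw [mem_range] at *
    omega
  omega

theorem rk_inj {X m K : ℕ} {a : ℕ → ℕ} {y y' : ℕ} (h : Pop X m K a y) (h' : Pop X m K a y')
    (he : rk X m K a y = rk X m K a y') : y = y' := by
  rcases Nat.lt_trichotomy y y' with h1 | h1 | h1
  · have := rk_mono h h1; omega
  · exact h1
  · have := rk_mono h' h1; omega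

theorem sum_cnt_le (C n : ℕ) (a : ℕ → ℕ) : ∑ y ∈ range n, cnt C a y ≤ C := by
  unfold cnt
  rw [Finset.sum_comm]
  calc _ ≤ ∑ c ∈ range C, 1 := by
        refine Finset.sum_le_sum fun c _ => ?_
        rw [Finset.sum_ite_eq]
        split_ifs <;> omega
    _ = C := by simp

theorem rk_lt {X m K : ℕ} {a : ℕ → ℕ} {y : ℕ} (hC : 0 < X * X * m) (h : Pop X m K a y) :
    rk X m K a y < K := by
  have h1 : (rk X m K a y + 1) * (X * X * m) ≤ K * (X * X * m) := by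
    have h2 : rk X m K a y + 1 =
        ∑ i ∈ range (y + 1), (if X * X * m ≤ K * cnt (X * X * m) a i then 1 else 0) := by
      have h0 : X * X * m ≤ K * cnt (X * X * m) a y := h
      rw [Finset.sum_range_succ, if_pos h0]; rfl
    rw [h2, Finset.sum_mul]
    calc _ ≤ ∑ i ∈ range (y + 1), K * cnt (X * X * m) a i := by
          refine Finset.sum_le_sum fun i _ => ?_
          split_ifs with h3
          · rw [one_mul]; exact h3
          · simp
      _ = K * ∑ i ∈ range (y + 1), cnt (X * X * m) a i := by rw [Finset.mul_sum]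
      _ ≤ K * (X * X * m) := Nat.mul_le_mul_left _ (sum_cnt_le _ _ _)
  have h3 := Nat.le_of_mul_le_mul_right h1 hC
  omega

/-- The popular values are simple. -/
theorem exists_pop {m : ℕ → ℕ} {a : ℕ → ℕ → ℕ → ℕ} (hm : Computable m)
    (ha : Computable fun p : ℕ × ℕ × ℕ => a p.1 p.2.1 p.2.2) :
    ∃ g : ℕ × ℕ × ℕ →. ℕ, Partrec g ∧ ∀ u v y,
      Pop (2 ^ (20 * u) * 2 ^ (20 * u)) (m u) (2 ^ (10 * u)) (a u v) y →
        y ∈ g (u, v, rk (2 ^ (20 * u) * 2 ^ (20 * u)) (m u) (2 ^ (10 * u)) (a u v) y) := by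
  have hcnt : Computable fun x : (ℕ × ℕ × ℕ) × ℕ =>
      cnt (2 ^ (20 * x.1.1) * 2 ^ (20 * x.1.1) * (2 ^ (20 * x.1.1) * 2 ^ (20 * x.1.1)) * m x.1.1)
        (a x.1.1 x.1.2.1) x.2 := by
    refine c_cnt (α := (ℕ × ℕ × ℕ) × ℕ) (A := fun x c => a x.1.1 x.1.2.1 c) (by fun_prop) ?_
      (by fun_prop)
    exact ha.comp (g := fun p : ((ℕ × ℕ × ℕ) × ℕ) × ℕ => (p.1.1.1, p.1.1.2.1, p.2))
      (by fun_prop)
  have hre : REPred fun x : (ℕ × ℕ × ℕ) × ℕ =>
      Pop (2 ^ (20 * x.1.1) * 2 ^ (20 * x.1.1)) (m x.1.1) (2 ^ (10 * x.1.1)) (a x.1.1 x.1.2.1)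
        x.2 ∧ rk (2 ^ (20 * x.1.1) * 2 ^ (20 * x.1.1)) (m x.1.1) (2 ^ (10 * x.1.1))
          (a x.1.1 x.1.2.1) x.2 = x.1.2.2 := by
    refine RE.and ?_ (RE.eq ?_ (by fun_prop))
    · unfold Pop
      exact RE.le (by fun_prop) (by fun_prop)
    · unfold rk
      refine c_sum (α := (ℕ × ℕ × ℕ) × ℕ) (q := fun x y' =>
        if 2 ^ (20 * x.1.1) * 2 ^ (20 * x.1.1) * (2 ^ (20 * x.1.1) * 2 ^ (20 * x.1.1)) * m x.1.1 ≤
          2 ^ (10 * x.1.1) * cnt (2 ^ (20 * x.1.1) * 2 ^ (20 * x.1.1) *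
            (2 ^ (20 * x.1.1) * 2 ^ (20 * x.1.1)) * m x.1.1) (a x.1.1 x.1.2.1) y'
        then 1 else 0) ?_ (by fun_prop)
      have h1 := hcnt.comp (g := fun p : ((ℕ × ℕ × ℕ) × ℕ) × ℕ => (p.1.1, p.2)) (by fun_prop)
      exact c_ite_le (by fun_prop) (by fun_prop) (by fun_prop) (by fun_prop)
  obtain ⟨g, hg, h1, h2⟩ := uniformize (r := fun (x : ℕ × ℕ × ℕ) y =>
    Pop (2 ^ (20 * x.1) * 2 ^ (20 * x.1)) (m x.1) (2 ^ (10 * x.1)) (a x.1 x.2.1) y ∧
      rk (2 ^ (20 * x.1) * 2 ^ (20 * x.1)) (m x.1) (2 ^ (10 * x.1)) (a x.1 x.2.1) y = x.2.2) hre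
  refine ⟨g, hg, fun u v y hy => ?_⟩
  obtain ⟨y', hy'⟩ := Part.dom_iff_mem.1 ((h1 (u, v, rk (2 ^ (20 * u) * 2 ^ (20 * u)) (m u)
    (2 ^ (10 * u)) (a u v) y)).2 ⟨y, hy, rfl⟩)
  have h3 := h2 _ _ hy'
  have h4 := rk_inj hy h3.1 h3.2.symm
  rw [← h4] at hy'
  exact hy'

end Pool.Agent.X215.SP
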